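import Pool.Agent.Y269.EL.Stm
import Pool.Agent.Y269.ElliottDef

/-!
Statements of the lemmas.
-/

set_option autoImplicit false

namespace Pool.Agent.Y269.EL

open Filter Topology Set
open scoped InnerProductSpace
open Pool.Agent.Y269.ElliottDef

/-- job OPS -/
def AmbStmt : Prop := ∃ (H : Type) (_ : NormedAddCommGroup H) (_ : InnerProductSpace ℂ H)
  (_ : CompleteSpace H), Nonempty (Amb H)

/-- job BUK -/
def BUStmt : Prop := ∀ (d cap dep : ℕ → ℕ) (an : ℕ → Finset ℕ), (∀ k, 1 ≤ d k) →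
  (∀ k, 2 * cap k ≤ d k) → (∀ k, k ∈ an k) → (∀ k, ∀ j ∈ an k, j ≠ k → dep j < dep k) →
  (∀ k, ∀ j ∈ an k, an j ⊆ an k) →
  ∀ (I : Type) (l : I → ℕ) (J : I → Finset ℕ) (F : I → Pt → ℂ), (∀ r, l r ∈ J r) →
    (∀ r, J r ⊆ an (l r)) → (∀ k, {r | l r = k}.encard ≤ cap k) →
    (∀ r, ContinuousOn (F r) (XX d)) →
    (∀ r, ∀ w ∈ XX d, ∀ k, F r (flp k w) = sg (J r) k * F r w) →
    ∃ w ∈ XX d, ∀ r, F r w = 0

section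

variable (H : Type) [NormedAddCommGroup H] [InnerProductSpace ℂ H] [CompleteSpace H]

/-- job DATA -/
def DataStmt : Prop := ∀ (A : Amb H) (G : Geo H), G.OK → ∃ D : Blk H, D.OK A G

/-- job GEO -/
def GeoStmt : Prop := ∀ (A : Amb H) (G : Geo H) (D : Blk H), G.OK → D.OK A G → (G.next A D).OK

variable {H}

/-- closed algebras of bounded functions -/
structure IsFA {T : Type} (K : Set (T → (H →L[ℂ] H))) : Prop where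
  bdd : ∀ F ∈ K, ∃ C : ℝ, ∀ t, ‖F t‖ ≤ C
  scal : ∀ c : ℂ, (fun _ => c • (1 : H →L[ℂ] H)) ∈ K
  add : ∀ F ∈ K, ∀ F' ∈ K, (fun t => F t + F' t) ∈ K
  mul : ∀ F ∈ K, ∀ F' ∈ K, (fun t => F t * F' t) ∈ K
  star : ∀ F ∈ K, (fun t => star (F t)) ∈ K
  lim : ∀ F, (∀ ε : ℝ, 0 < ε → ∃ F' ∈ K, ∀ t, ‖F t - F' t‖ ≤ ε) → F ∈ K

/-- representations of a set of functions as a C*-algebra -/
structure FARep {T : Type} (K : Set (T → (H →L[ℂ] H))) where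
  E : Type
  inst : CStarAlgebra E
  ev : T → (E →⋆ₐ[ℂ] (H →L[ℂ] H))
  norm_le : ∀ (x : E) (C : ℝ), 0 ≤ C → (∀ t, ‖ev t x‖ ≤ C) → ‖x‖ ≤ C
  mem : ∀ x : E, (fun t => ev t x) ∈ K
  surj : ∀ F ∈ K, ∃ x : E, ∀ t, ev t x = F t

attribute [instance] FARep.inst

variable (H)

/-- job FA -/
def FaStmt : Prop := ∀ (T : Type) (K : Set (T → (H →L[ℂ] H))), IsFA K → Nonempty (FARep K)

/-- job ISE -/
structure IseStmt : Prop where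
  gm : ∀ (A : Amb H), ∀ g ∈ GM A, star g * g = 1 ∧ g * star g = 1 ∧ -g ∈ GM A ∧
    (∀ m, A.R m * g = g * A.R m) ∧ ∀ m, star (A.R m) * g = g * star (A.R m)
  ub : ∀ (A : Amb H) (n : ℕ), ∀ s ∈ sph n, Ub A n s ∈ GM A ∧ star (Ub A n s) = Ub A n s ∧
    Ub A n s * Ub A n s = 1 ∧ -s ∈ sph n ∧ Ub A n (-s) = -Ub A n s
  ubc : ∀ (A : Amb H) (n : ℕ), Continuous (Ub A n)
  flp : ∀ (d : ℕ → ℕ), ∀ w ∈ XX d, ∀ k, flp k w ∈ XX d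
  cpt : ∀ (d : ℕ → ℕ), IsCompact (XX d) ∧ (XX d).Nonempty
  congr : ∀ (A : Amb H) (G : Geo H) F F', IsE A G F → (∀ t ∈ Icc (0 : ℝ) 1, ∀ u ∈ XX G.d,
    ∀ v ∈ XX G.d, ∀ g ∈ GM A, F t u v g = F' t u v g) → IsE A G F'
  scal : ∀ (A : Amb H) (G : Geo H), G.OK → ∀ c : ℂ, IsE A G fun _ _ _ _ => c • 1
  add : ∀ (A : Amb H) (G : Geo H), G.OK → ∀ F F', IsE A G F → IsE A G F' →
    IsE A G fun t u v g => F t u v g + F' t u v g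
  mul : ∀ (A : Amb H) (G : Geo H), G.OK → ∀ F F', IsE A G F → IsE A G F' →
    IsE A G fun t u v g => F t u v g * F' t u v g
  star : ∀ (A : Amb H) (G : Geo H), G.OK → ∀ F, IsE A G F →
    IsE A G fun t u v g => star (F t u v g)
  lim : ∀ (A : Amb H) (G : Geo H), G.OK → ∀ F, (∀ ε : ℝ, 0 < ε → ∃ F', IsE A G F' ∧
    ∀ t ∈ Icc (0 : ℝ) 1, ∀ u ∈ XX G.d, ∀ v ∈ XX G.d, ∀ g ∈ GM A,
      ‖F t u v g - F' t u v g‖ ≤ ε) → IsE A G F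

/-- the properties of the connecting map on values; job PHI -/
structure PhiStmt : Prop where
  isE : ∀ (A : Amb H) (G : Geo H) (D : Blk H), G.OK → D.OK A G → ∀ F, IsE A G F →
    IsE A (G.next A D) (Phi A G D F)
  congr : ∀ (A : Amb H) (G : Geo H) (D : Blk H), G.OK → D.OK A G → ∀ F F', IsE A G F →
    (∀ t ∈ Icc (0 : ℝ) 1, ∀ u ∈ XX G.d, ∀ v ∈ XX G.d, ∀ g ∈ GM A,
      F t u v g = F' t u v g) → ∀ s ∈ Icc (0 : ℝ) 1, ∀ w ∈ XX (G.next A D).d,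
    ∀ w' ∈ XX (G.next A D).d, ∀ g ∈ GM A, Phi A G D F s w w' g = Phi A G D F' s w w' g
  scal : ∀ (A : Amb H) (G : Geo H) (D : Blk H), G.OK → D.OK A G → ∀ c : ℂ,
    ∀ s ∈ Icc (0 : ℝ) 1, ∀ w ∈ XX (G.next A D).d, ∀ w' ∈ XX (G.next A D).d, ∀ g ∈ GM A,
      Phi A G D (fun _ _ _ _ => c • 1) s w w' g = c • 1
  add : ∀ (A : Amb H) (G : Geo H) (D : Blk H), G.OK → D.OK A G → ∀ F F', IsE A G F →
    IsE A G F' → ∀ s ∈ Icc (0 : ℝ) 1, ∀ w ∈ XX (G.next A D).d, ∀ w' ∈ XX (G.next A D).d,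
    ∀ g ∈ GM A, Phi A G D (fun t u v g => F t u v g + F' t u v g) s w w' g =
      Phi A G D F s w w' g + Phi A G D F' s w w' g
  mul : ∀ (A : Amb H) (G : Geo H) (D : Blk H), G.OK → D.OK A G → ∀ F F', IsE A G F →
    IsE A G F' → ∀ s ∈ Icc (0 : ℝ) 1, ∀ w ∈ XX (G.next A D).d, ∀ w' ∈ XX (G.next A D).d,
    ∀ g ∈ GM A, Phi A G D (fun t u v g => F t u v g * F' t u v g) s w w' g =
      Phi A G D F s w w' g * Phi A G D F' s w w' g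
  star : ∀ (A : Amb H) (G : Geo H) (D : Blk H), G.OK → D.OK A G → ∀ F, IsE A G F →
    ∀ s ∈ Icc (0 : ℝ) 1, ∀ w ∈ XX (G.next A D).d, ∀ w' ∈ XX (G.next A D).d,
    ∀ g ∈ GM A, Phi A G D (fun t u v g => star (F t u v g)) s w w' g =
      star (Phi A G D F s w w' g)

/-- job FULL -/
def FullStmt : Prop := ∀ (A : Amb H) (G : Geo H) (D : Blk H), G.OK → D.OK A G →
  (G.next A D).OK → ∀ F, IsE A G F → IsE A (G.next A D) (Phi A G D F) →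
  (∃ t ∈ Icc (0 : ℝ) 1, ∃ u ∈ XX G.d, ∃ v ∈ XX G.d, ∃ g ∈ GM A, F t u v g ≠ 0) →
  ∃ (n : ℕ) (X : Fin n → ℝ → Pt → Pt → (H →L[ℂ] H) → (H →L[ℂ] H)) (δ : ℝ), 0 < δ ∧
    (∀ i, IsE A (G.next A D) (X i)) ∧ ∀ s ∈ Icc (0 : ℝ) 1, ∀ w ∈ XX (G.next A D).d,
    ∀ w' ∈ XX (G.next A D).d, ∀ g ∈ GM A, ∀ ξ : H,
      δ * ‖ξ‖ ^ 2 ≤ ∑ i, ‖Phi A G D F s w w' g (X i s w w' g ξ)‖ ^ 2

variable {H}

/-- functions whose values are projections -/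
def ProjValued (A : Amb H) (G : Geo H)
    (P : ℝ → Pt → Pt → (H →L[ℂ] H) → (H →L[ℂ] H)) : Prop :=
  ∀ t ∈ Icc (0 : ℝ) 1, ∀ u ∈ XX G.d, ∀ v ∈ XX G.d, ∀ g ∈ GM A,
    star (P t u v g) = P t u v g ∧ P t u v g * P t u v g = P t u v g

/-- an equivalence of `c` and `c ⊕ c`, where `c` is the value at the time zero -/
structure Dbl (G : Geo H) (P : ℝ → Pt → Pt → (H →L[ℂ] H) → (H →L[ℂ] H))
    (a : Pt → (H →L[ℂ] H)) : Prop where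
  sc : SC (XX G.d) a
  even : ∀ u ∈ XX G.d, ∀ k, a (flp k u) = a u
  source : ∀ u ∈ XX G.d, star (a u) * a u =
    G.S1 * P 0 u u 1 * star G.S1 + G.S2 * P 0 u u 1 * star G.S2
  range : ∀ u ∈ XX G.d, a u * star (a u) = P 0 u u 1

/-- sections of infinitely many blocks -/
structure Secs (A : Amb H) (G : Geo H) (D : Blk H)
    (P : ℝ → Pt → Pt → (H →L[ℂ] H) → (H →L[ℂ] H)) (μ : ℕ → ℕ) (x : ℕ → ℝ → Pt → H) :
    Prop where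
  inj : Function.Injective μ
  odd : ∀ j, Odd (μ j)
  norm : ∀ j, ∀ τ ∈ Icc (0 : ℝ) (D.t (μ j)), ∀ w ∈ XX (G.next A D).d, ‖x j τ w‖ = 1
  fix : ∀ j, ∀ τ ∈ Icc (0 : ℝ) (D.t (μ j)), ∀ w ∈ XX (G.next A D).d,
    blkt A G D (μ j) P τ w (x j τ w) = x j τ w
  cont : ∀ j, ContinuousOn (fun z : ℝ × Pt => x j z.1 z.2)
    (Icc (0 : ℝ) (D.t (μ j)) ×ˢ XX (G.next A D).d)
  even : ∀ j, ∀ τ ∈ Icc (0 : ℝ) (D.t (μ j)), ∀ w ∈ XX (G.next A D).d, ∀ k,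
    x j τ (flp k w) = x j τ w
  eqc : ∀ ε : ℝ, 0 < ε → ∃ δ : ℝ, 0 < δ ∧ ∀ j, ∀ τ ∈ Icc (0 : ℝ) (D.t (μ j)),
    ∀ τ' ∈ Icc (0 : ℝ) (D.t (μ j)), |τ - τ'| < δ → ∀ w ∈ XX (G.next A D).d,
      ‖x j τ w - x j τ' w‖ ≤ ε

variable (H)

/-- job HOM -/
def HomStmt : Prop := ∀ (A : Amb H) (G : Geo H), G.OK → ∀ P, IsE A G P → ProjValued A G P →
  ∃ a, Dbl G P a

/-- job SEC -/
def SecStmt : Prop := ∀ (A : Amb H) (G : Geo H) (D : Blk H), G.OK → D.OK A G → ∀ P,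
  IsE A G P → ProjValued A G P →
  (∃ t ∈ Icc (0 : ℝ) 1, ∃ u ∈ XX G.d, ∃ v ∈ XX G.d, ∃ g ∈ GM A, P t u v g ≠ 0) →
  ∀ a, Dbl G P a → ∃ μ x, Secs A G D P μ x

/-- job SHIFT -/
def ShiftStmt : Prop := ∀ (A : Amb H) (G : Geo H) (D : Blk H), G.OK → D.OK A G →
  (G.next A D).OK → ∀ P, IsE A G P → ProjValued A G P → IsE A (G.next A D) (Phi A G D P) →
  ProjValued A (G.next A D) (Phi A G D P) → ∀ μ x, Secs A G D P μ x →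
  ∃ W, IsE A (G.next A D) W ∧
    (∀ s ∈ Icc (0 : ℝ) 1, ∀ w ∈ XX (G.next A D).d, ∀ w' ∈ XX (G.next A D).d, ∀ g ∈ GM A,
      star (W s w w' g) * W s w w' g = Phi A G D P s w w' g ∧
      Phi A G D P s w w' g * W s w w' g = W s w w' g) ∧
    ∃ s ∈ Icc (0 : ℝ) 1, ∃ w ∈ XX (G.next A D).d, ∃ w' ∈ XX (G.next A D).d, ∃ g ∈ GM A,
      W s w w' g * star (W s w w' g) ≠ Phi A G D P s w w' g

/-- job ROWS -/
def RowsStmt : Prop := ∀ (A : Amb H) (G : Geo H) (D : Blk H), G.OK → D.OK A G → ∀ F,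
  IsE A G F → Good A G F → Good A (G.next A D) (Phi A G D F)

/-- job INIT -/
def InitStmt : Prop := ∀ (A : Amb H) (S1 S2 : H →L[ℂ] H), star S1 * S1 = 1 → star S2 * S2 = 1 →
  star S1 * S2 = 0 → S1 * star S1 + S2 * star S2 = 1 → ∃ G : Geo H, G.OK ∧
  ∃ F, IsE A G F ∧ Good A G F ∧
    ∃ t ∈ Icc (0 : ℝ) 1, ∃ u ∈ XX G.d, ∃ v ∈ XX G.d, ∃ g ∈ GM A, F t u v g ≠ 0

/-- job OBS -/
def ObsStmt : Prop := ∀ (A : Amb H) (G : Geo H), G.OK → ∀ F, Good A G F → ∀ Y, IsE A G Y →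
  ∀ e : H, ∃ w ∈ XX G.d, F 0 w w 1 ((star (Y 0 w w 1)) e) = 0

end

/-- the properties of the counterexample -/
def Core (A : Type) [CStarAlgebra A] : Prop := IsSimpleRing A ∧
  (∀ p : A, IsStarProjection p → p ≠ 0 → InfiniteProj p) ∧
  ∃ x : A, x ≠ 0 ∧ ∀ y : A, 1 ≤ ‖1 - y * (star x * x) * star y‖

/-- job LIM -/
def LimStmt : Prop := ∀ (E : ℕ → Type) [∀ n, CStarAlgebra (E n)] [∀ n, Nontrivial (E n)]
  (φ : ∀ n, E n →⋆ₐ[ℂ] E (n + 1)), (∀ n, Function.Injective (φ n)) →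
  (∀ n (x : E n), x ≠ 0 → ∀ I : TwoSidedIdeal (E (n + 1)), φ n x ∈ I → I = ⊤) →
  (∀ n (p : E n), IsStarProjection p → p ≠ 0 → InfiniteProj (φ n p)) →
  ∀ f : ∀ n, E n, (∀ n, f (n + 1) = φ n (f n)) → f 0 ≠ 0 →
  (∀ n (y : E n), 1 ≤ ‖1 - y * (star (f n) * f n) * star y‖) →
  ∃ (L : Type) (_ : CStarAlgebra L), Core L

/-- job SEP -/
def SepStmt : Prop := ∀ (L : Type) [CStarAlgebra L], Core L →
  ∃ (A : Type) (_ : CStarAlgebra A), TopologicalSpace.SeparableSpace A ∧ Core A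

/-- job NPI -/
def NpiStmt : Prop := ∀ (A : Type) [CStarAlgebra A], Core A → ¬ PurelyInfinite A

end Pool.Agent.Y269.EL
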