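import Pool.Agent.Y269.EL.Stm

/-!
Operators given by their rows, block diagonal operators, strong continuity.
-/

set_option autoImplicit false

namespace Pool.Agent.Y269.EL

set_option linter.unusedSectionVars false

open Filter Topology Set
open scoped InnerProductSpace

noncomputable section

variable {H : Type} [NormedAddCommGroup H] [InnerProductSpace ℂ H] [CompleteSpace H]
variable (A : Amb H)

lemma mul_ap (S T : H →L[ℂ] H) (x : H) : (S * T) x = S (T x) := rfl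

lemma inner_star (S : H →L[ℂ] H) (x y : H) : ⟪(star S) x, y⟫_ℂ = ⟪x, S y⟫_ℂ := by
  rw [ContinuousLinearMap.star_eq_adjoint, ContinuousLinearMap.adjoint_inner_left]

lemma inner_star' (S : H →L[ℂ] H) (x y : H) : ⟪x, (star S) y⟫_ℂ = ⟪S x, y⟫_ℂ := by
  rw [ContinuousLinearMap.star_eq_adjoint, ContinuousLinearMap.adjoint_inner_right]

lemma norm_ap_of_isom {S : H →L[ℂ] H} (h : star S * S = 1) (x : H) : ‖S x‖ = ‖x‖ := by
  have h1 : ⟪S x, S x⟫_ℂ = ⟪x, x⟫_ℂ := by
    rw [← inner_star', ← mul_ap, h]; rfl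
  have h2 : ‖S x‖ ^ 2 = ‖x‖ ^ 2 := by
    rw [inner_self_eq_norm_sq_to_K, inner_self_eq_norm_sq_to_K] at h1
    exact_mod_cast h1
  exact (pow_left_inj₀ (norm_nonneg _) (norm_nonneg _) two_ne_zero).mp h2

lemma norm_le_one_of_isom {S : H →L[ℂ] H} (h : star S * S = 1) : ‖S‖ ≤ 1 :=
  ContinuousLinearMap.opNorm_le_bound _ zero_le_one fun x => by rw [norm_ap_of_isom h, one_mul]

lemma R_self (m : ℕ) : star (A.R m) * A.R m = 1 := by rw [A.R_orth, if_pos rfl]

lemma R_ne {m k : ℕ} (h : m ≠ k) : star (A.R m) * A.R k = 0 := by rw [A.R_orth, if_neg h]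

lemma ext_Rv {x y : H} (h : ∀ m, (star (A.R m)) x = (star (A.R m)) y) : x = y := by
  have h1 := A.parseval (x - y)
  have h2 : (fun m => ‖(star (A.R m)) (x - y)‖ ^ 2) = fun _ => (0 : ℝ) := by
    funext m
    rw [map_sub, h m, sub_self, norm_zero]
    norm_num
  rw [h2] at h1
  have h3 := h1.unique hasSum_zero
  have h4 : ‖x - y‖ = 0 := by
    by_contra hne
    have : 0 < ‖x - y‖ ^ 2 := by positivity
    linarith
  exact sub_eq_zero.mp (norm_eq_zero.mp h4)

lemma ext_R {Y Y' : H →L[ℂ] H} (h : ∀ m, star (A.R m) * Y = star (A.R m) * Y') : Y = Y' :=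
  ContinuousLinearMap.ext fun x => ext_Rv A fun m => by
    rw [← mul_ap, h m, mul_ap]

lemma asm_eq {X : ℕ → (H →L[ℂ] H)} {Y : H →L[ℂ] H} (h : ∀ m, star (A.R m) * Y = X m) :
    asm A X = Y := by
  classical
  have hex : ∃ Y : H →L[ℂ] H, ∀ m, star (A.R m) * Y = X m := ⟨Y, h⟩
  have : asm A X = hex.choose := by
    unfold asm
    rw [dif_pos hex]
  rw [this]
  exact ext_R A fun m => by rw [hex.choose_spec m, h m]

lemma asm_spec {X : ℕ → (H →L[ℂ] H)} {C : ℝ} (hC : 0 ≤ C)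
    (hX : ∀ (N : ℕ) (f : H), ∑ m ∈ Finset.range N, ‖X m f‖ ^ 2 ≤ C ^ 2 * ‖f‖ ^ 2) :
    (∀ m, star (A.R m) * asm A X = X m) ∧ ‖asm A X‖ ≤ C := by
  obtain ⟨Y, h1, h2⟩ := A.fs X C hC hX
  rw [asm_eq A h1]
  exact ⟨h1, h2⟩

lemma sum_R_le (N : ℕ) (f : H) :
    ∑ m ∈ Finset.range N, ‖(star (A.R m)) f‖ ^ 2 ≤ ‖f‖ ^ 2 :=
  sum_le_hasSum _ (fun _ _ => by positivity) (A.parseval f)

section bs

variable {T T' : ℕ → (H →L[ℂ] H)} {C C' : ℝ}

lemma bs_bound (hT : ∀ m, ‖T m‖ ≤ C) (N : ℕ) (f : H) :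
    ∑ m ∈ Finset.range N, ‖(T m * star (A.R m)) f‖ ^ 2 ≤ C ^ 2 * ‖f‖ ^ 2 := by
  have h0 : 0 ≤ C := (norm_nonneg _).trans (hT 0)
  calc ∑ m ∈ Finset.range N, ‖(T m * star (A.R m)) f‖ ^ 2
      ≤ ∑ m ∈ Finset.range N, C ^ 2 * ‖(star (A.R m)) f‖ ^ 2 := by
        refine Finset.sum_le_sum fun m _ => ?_
        rw [mul_ap, ← mul_pow]
        refine pow_le_pow_left₀ (norm_nonneg _) ?_ 2
        exact ((T m).le_opNorm _).trans (mul_le_mul_of_nonneg_right (hT m) (norm_nonneg _))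
    _ = C ^ 2 * ∑ m ∈ Finset.range N, ‖(star (A.R m)) f‖ ^ 2 := by rw [Finset.mul_sum]
    _ ≤ C ^ 2 * ‖f‖ ^ 2 := mul_le_mul_of_nonneg_left (sum_R_le A N f) (sq_nonneg _)

lemma bs_row (hT : ∀ m, ‖T m‖ ≤ C) (m : ℕ) :
    star (A.R m) * bs A T = T m * star (A.R m) :=
  (asm_spec A ((norm_nonneg _).trans (hT 0)) (bs_bound A hT)).1 m

lemma norm_bs_le (hT : ∀ m, ‖T m‖ ≤ C) : ‖bs A T‖ ≤ C :=
  (asm_spec A ((norm_nonneg _).trans (hT 0)) (bs_bound A hT)).2

lemma bs_eq {Y : H →L[ℂ] H} (h : ∀ m, star (A.R m) * Y = T m * star (A.R m)) : bs A T = Y :=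
  asm_eq A h

lemma bs_mul_R (hT : ∀ m, ‖T m‖ ≤ C) (m : ℕ) : bs A T * A.R m = A.R m * T m := by
  refine ext_R A fun k => ?_
  rw [← mul_assoc, bs_row A hT, mul_assoc, ← mul_assoc (star (A.R k))]
  by_cases h : k = m
  · subst h
    rw [R_self]; simp
  · rw [R_ne A h]; simp

lemma hasSum_bs (hT : ∀ m, ‖T m‖ ≤ C) (x : H) :
    HasSum (fun m => ‖T m ((star (A.R m)) x)‖ ^ 2) (‖bs A T x‖ ^ 2) := by
  have h := A.parseval (bs A T x)
  have h2 : (fun m => ‖(star (A.R m)) (bs A T x)‖ ^ 2) =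
      fun m => ‖T m ((star (A.R m)) x)‖ ^ 2 := by
    funext m
    rw [← mul_ap, bs_row A hT, mul_ap]
  rwa [h2] at h

lemma bs_add (hT : ∀ m, ‖T m‖ ≤ C) (hT' : ∀ m, ‖T' m‖ ≤ C') :
    bs A (fun m => T m + T' m) = bs A T + bs A T' :=
  bs_eq A fun m => by rw [mul_add, bs_row A hT, bs_row A hT', add_mul]

lemma bs_sub (hT : ∀ m, ‖T m‖ ≤ C) (hT' : ∀ m, ‖T' m‖ ≤ C') :
    bs A (fun m => T m - T' m) = bs A T - bs A T' :=
  bs_eq A fun m => by rw [mul_sub, bs_row A hT, bs_row A hT', sub_mul]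

lemma bs_mul (hT : ∀ m, ‖T m‖ ≤ C) (hT' : ∀ m, ‖T' m‖ ≤ C') :
    bs A (fun m => T m * T' m) = bs A T * bs A T' :=
  bs_eq A fun m => by rw [← mul_assoc, bs_row A hT, mul_assoc, bs_row A hT', mul_assoc]

lemma bs_star (hT : ∀ m, ‖T m‖ ≤ C) : bs A (fun m => star (T m)) = star (bs A T) :=
  bs_eq A fun m => by
    rw [← star_mul, bs_mul_R A hT, star_mul]

lemma bs_smul_one (c : ℂ) : bs A (fun _ => c • (1 : H →L[ℂ] H)) = c • 1 :=
  bs_eq A fun m => by simp

lemma bs_one : bs A (fun _ => (1 : H →L[ℂ] H)) = 1 :=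
  bs_eq A fun m => by simp

lemma norm_bs_sub_le (hT : ∀ m, ‖T m‖ ≤ C) (hT' : ∀ m, ‖T' m‖ ≤ C') {ε : ℝ}
    (h : ∀ m, ‖T m - T' m‖ ≤ ε) : ‖bs A T - bs A T'‖ ≤ ε := by
  rw [← bs_sub A hT hT']
  exact norm_bs_le A h

end bs

/-! ### operators with rows along an injection -/

/-- the operator `∑ R (ν i) * W i` -/
def asmI (ν : ℕ → ℕ) (W : ℕ → (H →L[ℂ] H)) : H →L[ℂ] H := by
  classical exact asm A fun m => if h : ∃ i, ν i = m then W h.choose else 0

section asmI

variable {ν : ℕ → ℕ} {W : ℕ → (H →L[ℂ] H)} {C : ℝ}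

lemma asmI_aux (hν : Function.Injective ν) (hC : 0 ≤ C)
    (hW : ∀ (N : ℕ) (f : H), ∑ i ∈ Finset.range N, ‖W i f‖ ^ 2 ≤ C ^ 2 * ‖f‖ ^ 2) :
    (∀ i, star (A.R (ν i)) * asmI A ν W = W i) ∧
      (∀ m, (∀ i, ν i ≠ m) → star (A.R m) * asmI A ν W = 0) ∧ ‖asmI A ν W‖ ≤ C := by
  classical
  set X : ℕ → (H →L[ℂ] H) := fun m => if h : ∃ i, ν i = m then W h.choose else 0 with hX
  have h1 : ∀ i, X (ν i) = W i := by
    intro i
    have h : ∃ j, ν j = ν i := ⟨i, rfl⟩
    simp only [hX]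
    rw [dif_pos h, hν h.choose_spec]
  have h2 : ∀ m, (∀ i, ν i ≠ m) → X m = 0 := by
    intro m hm
    simp only [hX]
    rw [dif_neg]
    rintro ⟨i, hi⟩
    exact hm i hi
  have hb : ∀ (N : ℕ) (f : H), ∑ m ∈ Finset.range N, ‖X m f‖ ^ 2 ≤ C ^ 2 * ‖f‖ ^ 2 := by
    intro N f
    have hinj : Set.InjOn ν (ν ⁻¹' (Finset.range N : Set ℕ)) := hν.injOn
    have h3 : ∑ i ∈ (Finset.range N).preimage ν hinj, ‖X (ν i) f‖ ^ 2 =
        ∑ m ∈ Finset.range N, ‖X m f‖ ^ 2 := by
      refine Finset.sum_preimage ν (Finset.range N) hinj (fun m => ‖X m f‖ ^ 2) ?_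
      intro m _ hm
      rw [h2 m fun i hi => hm ⟨i, hi⟩]
      simp
    rw [← h3]
    obtain ⟨M, hM⟩ : ∃ M, (Finset.range N).preimage ν hinj ⊆ Finset.range M := by
      refine ⟨((Finset.range N).preimage ν hinj).sup id + 1, fun i hi => ?_⟩
      rw [Finset.mem_range]
      have := Finset.le_sup (f := id) hi
      exact Nat.lt_succ_of_le this
    calc ∑ i ∈ (Finset.range N).preimage ν hinj, ‖X (ν i) f‖ ^ 2
        = ∑ i ∈ (Finset.range N).preimage ν hinj, ‖W i f‖ ^ 2 :=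
          Finset.sum_congr rfl fun i _ => by rw [h1]
      _ ≤ ∑ i ∈ Finset.range M, ‖W i f‖ ^ 2 :=
          Finset.sum_le_sum_of_subset_of_nonneg hM fun _ _ _ => by positivity
      _ ≤ C ^ 2 * ‖f‖ ^ 2 := hW M f
  have hdef : asmI A ν W = asm A X := rfl
  obtain ⟨h4, h5⟩ := asm_spec A hC hb
  rw [hdef]
  exact ⟨fun i => by rw [h4, h1], fun m hm => by rw [h4, h2 m hm], h5⟩

variable (hν : Function.Injective ν) (hC : 0 ≤ C)
  (hW : ∀ (N : ℕ) (f : H), ∑ i ∈ Finset.range N, ‖W i f‖ ^ 2 ≤ C ^ 2 * ‖f‖ ^ 2)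

include hν hC hW

lemma asmI_row (i : ℕ) : star (A.R (ν i)) * asmI A ν W = W i := (asmI_aux A hν hC hW).1 i

lemma asmI_row_ne {m : ℕ} (hm : ∀ i, ν i ≠ m) : star (A.R m) * asmI A ν W = 0 :=
  (asmI_aux A hν hC hW).2.1 m hm

lemma norm_asmI_le : ‖asmI A ν W‖ ≤ C := (asmI_aux A hν hC hW).2.2

lemma hasSum_asmI (x : H) : HasSum (fun i => ‖W i x‖ ^ 2) (‖asmI A ν W x‖ ^ 2) := by
  have h := A.parseval (asmI A ν W x)
  have h2 : (fun i => ‖W i x‖ ^ 2) = (fun m => ‖(star (A.R m)) (asmI A ν W x)‖ ^ 2) ∘ ν := by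
    funext i
    rw [Function.comp_apply, ← mul_ap, asmI_row A hν hC hW]
  rw [h2, hν.hasSum_iff]
  · exact h
  · intro m hm
    rw [← mul_ap, asmI_row_ne A hν hC hW fun i hi => hm ⟨i, hi⟩]
    simp

end asmI

lemma asmI_unique {ν : ℕ → ℕ} {W : ℕ → (H →L[ℂ] H)} {C : ℝ} (hν : Function.Injective ν)
    (hC : 0 ≤ C) (hW : ∀ (N : ℕ) (f : H), ∑ i ∈ Finset.range N, ‖W i f‖ ^ 2 ≤ C ^ 2 * ‖f‖ ^ 2)
    {Y : H →L[ℂ] H} (h1 : ∀ i, star (A.R (ν i)) * Y = W i)
    (h2 : ∀ m, (∀ i, ν i ≠ m) → star (A.R m) * Y = 0) : asmI A ν W = Y := by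
  refine ext_R A fun m => ?_
  by_cases h : ∃ i, ν i = m
  · obtain ⟨i, rfl⟩ := h
    rw [asmI_row A hν hC hW, h1]
  · push Not at h
    rw [asmI_row_ne A hν hC hW h, h2 m h]

/-! ### the second isometry of the next stage -/

section S2

lemma two_inj : Function.Injective fun i : ℕ => 2 * i := fun i j h => by
  have h' : 2 * i = 2 * j := h
  omega

lemma S2_bound (S : H →L[ℂ] H) (N : ℕ) (f : H) :
    ∑ i ∈ Finset.range N, ‖(S * star (A.R i)) f‖ ^ 2 ≤ ‖S‖ ^ 2 * ‖f‖ ^ 2 :=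
  bs_bound A (T := fun _ => S) (C := ‖S‖) (fun _ => le_refl _) N f

lemma next_S2_eq (G : Geo H) (D : Blk H) :
    (G.next A D).S2 = asmI A (fun i => 2 * i) (fun i => G.S2 * star (A.R i)) := by
  symm
  have hb := S2_bound A G.S2
  have hdef : (G.next A D).S2 = asm A (fun m => if Even m then G.S2 * star (A.R (m / 2)) else 0) :=
    rfl
  rw [hdef]
  symm
  refine asm_eq A fun m => ?_
  by_cases h : Even m
  · rw [if_pos h]
    obtain ⟨i, hi⟩ := h
    have h1 : m = 2 * i := by omega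
    have h2 : m / 2 = i := by omega
    rw [h2, h1]
    exact asmI_row A two_inj (norm_nonneg _) hb i
  · rw [if_neg h]
    refine asmI_row_ne A two_inj (norm_nonneg _) hb fun i hi => h ?_
    exact ⟨i, by omega⟩

variable (G : Geo H) (D : Blk H)

lemma next_S2_row_even (i : ℕ) :
    star (A.R (2 * i)) * (G.next A D).S2 = G.S2 * star (A.R i) := by
  rw [next_S2_eq]
  exact asmI_row A two_inj (norm_nonneg _) (S2_bound A G.S2) i

lemma next_S2_row_odd {m : ℕ} (h : Odd m) : star (A.R m) * (G.next A D).S2 = 0 := by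
  rw [next_S2_eq]
  refine asmI_row_ne A two_inj (norm_nonneg _) (S2_bound A G.S2) fun i hi => ?_
  obtain ⟨j, hj⟩ := h
  have hi' : 2 * i = m := hi
  omega

lemma next_S2_mul_R (i : ℕ) : (G.next A D).S2 * A.R i = A.R (2 * i) * G.S2 := by
  refine ext_R A fun k => ?_
  rcases Nat.even_or_odd k with h | h
  · obtain ⟨j, hj⟩ := h
    have h1 : k = 2 * j := by omega
    rw [h1, ← mul_assoc, next_S2_row_even, mul_assoc, ← mul_assoc (star (A.R (2 * j)))]
    by_cases hji : j = i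
    · rw [hji, R_self, R_self, mul_one, one_mul]
    · rw [R_ne A hji, R_ne A (show 2 * j ≠ 2 * i by omega), mul_zero, zero_mul]
  · rw [← mul_assoc, next_S2_row_odd A G D h, ← mul_assoc, R_ne A (show k ≠ 2 * i by
      obtain ⟨j, hj⟩ := h
      omega), zero_mul, zero_mul]

lemma next_S1_bound (m : ℕ) : ‖(if Even m then G.S1 else 1 : H →L[ℂ] H)‖ ≤ max ‖G.S1‖ 1 := by
  split_ifs
  · exact le_max_left _ _
  · refine le_trans ?_ (le_max_right _ _)
    exact norm_le_one_of_isom (by simp)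

lemma next_S1_mul_R_even (i : ℕ) : (G.next A D).S1 * A.R (2 * i) = A.R (2 * i) * G.S1 := by
  have h := bs_mul_R A (next_S1_bound G) (2 * i)
  rwa [if_pos ⟨i, by ring⟩] at h

lemma next_S1_mul_R_odd {m : ℕ} (hm : Odd m) : (G.next A D).S1 * A.R m = A.R m := by
  have h := bs_mul_R A (next_S1_bound G) m
  rwa [if_neg (Nat.not_even_iff_odd.mpr hm), mul_one] at h

lemma next_S1_row_even (i : ℕ) : star (A.R (2 * i)) * (G.next A D).S1 = G.S1 * star (A.R (2 * i)) := by
  have h := bs_row A (next_S1_bound G) (2 * i)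
  rwa [if_pos ⟨i, by ring⟩] at h

lemma next_S1_row_odd {m : ℕ} (hm : Odd m) : star (A.R m) * (G.next A D).S1 = star (A.R m) := by
  have h := bs_row A (next_S1_bound G) m
  rwa [if_neg (Nat.not_even_iff_odd.mpr hm), one_mul] at h

lemma next_s11 (h : star G.S1 * G.S1 = 1) : star (G.next A D).S1 * (G.next A D).S1 = 1 := by
  have h1 : (G.next A D).S1 = bs A (fun m => if Even m then G.S1 else 1) := rfl
  have h2 : (fun m : ℕ => star (if Even m then G.S1 else 1 : H →L[ℂ] H) *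
      (if Even m then G.S1 else 1)) = fun _ => (1 : H →L[ℂ] H) := by
    funext m
    by_cases hm : Even m
    · simp only [if_pos hm]
      exact h
    · simp only [if_neg hm]
      rw [star_one, one_mul]
  have h3 := bs_mul A (T := fun m => star (if Even m then G.S1 else 1 : H →L[ℂ] H))
    (T' := fun m => (if Even m then G.S1 else 1)) (fun m => by
    rw [norm_star]; exact next_S1_bound G m) (next_S1_bound G)
  rw [bs_star A (next_S1_bound G), h2, bs_one] at h3
  rw [h1, ← h3]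

lemma next_s22 (h : star G.S2 * G.S2 = 1) : star (G.next A D).S2 * (G.next A D).S2 = 1 := by
  refine ext_R A fun m => ?_
  have h1 : star (A.R m) * star (G.next A D).S2 = star G.S2 * star (A.R (2 * m)) := by
    rw [← star_mul, next_S2_mul_R, star_mul]
  rw [← mul_assoc, h1, mul_assoc, next_S2_row_even, ← mul_assoc, h, one_mul, mul_one]

lemma next_s12 (h : star G.S1 * G.S2 = 0) : star (G.next A D).S1 * (G.next A D).S2 = 0 := by
  refine ext_R A fun m => ?_
  rw [mul_zero]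
  rcases Nat.even_or_odd m with hm | hm
  · obtain ⟨j, hj⟩ := hm
    have h1 : m = 2 * j := by omega
    have h2 : star (A.R (2 * j)) * star (G.next A D).S1 = star G.S1 * star (A.R (2 * j)) := by
      rw [← star_mul, next_S1_mul_R_even, star_mul]
    rw [h1, ← mul_assoc, h2, mul_assoc, next_S2_row_even, ← mul_assoc, h, zero_mul]
  · have h2 : star (A.R m) * star (G.next A D).S1 = star (A.R m) := by
      rw [← star_mul, next_S1_mul_R_odd A G D hm]
    rw [← mul_assoc, h2, next_S2_row_odd A G D hm]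

lemma next_sum (h : G.S1 * star G.S1 + G.S2 * star G.S2 = 1) :
    (G.next A D).S1 * star (G.next A D).S1 + (G.next A D).S2 * star (G.next A D).S2 = 1 := by
  refine ext_R A fun m => ?_
  rw [mul_add, mul_one]
  rcases Nat.even_or_odd m with hm | hm
  · obtain ⟨j, hj⟩ := hm
    have h1 : m = 2 * j := by omega
    have h2 : star (A.R (2 * j)) * star (G.next A D).S1 = star G.S1 * star (A.R (2 * j)) := by
      rw [← star_mul, next_S1_mul_R_even, star_mul]
    have h3 : star (A.R j) * star (G.next A D).S2 = star G.S2 * star (A.R (2 * j)) := by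
      rw [← star_mul, next_S2_mul_R, star_mul]
    have hA : star (A.R (2 * j)) * ((G.next A D).S1 * star (G.next A D).S1) =
        G.S1 * star G.S1 * star (A.R (2 * j)) := by
      rw [← mul_assoc, next_S1_row_even, mul_assoc, h2, ← mul_assoc]
    have hB : star (A.R (2 * j)) * ((G.next A D).S2 * star (G.next A D).S2) =
        G.S2 * star G.S2 * star (A.R (2 * j)) := by
      rw [← mul_assoc, next_S2_row_even, mul_assoc, h3, ← mul_assoc]
    rw [h1, hA, hB, ← add_mul, h, one_mul]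
  · have h2 : star (A.R m) * star (G.next A D).S1 = star (A.R m) := by
      rw [← star_mul, next_S1_mul_R_odd A G D hm]
    rw [← mul_assoc, next_S1_row_odd A G D hm, h2, ← mul_assoc, next_S2_row_odd A G D hm,
      zero_mul, add_zero]

end S2

/-! ### strong continuity -/

section SC

variable {Z : Type} [TopologicalSpace Z] {D : Set Z} {F F' : Z → (H →L[ℂ] H)}

lemma SC.star (h : SC D F) : SC D fun z => star (F z) where
  bdd := by
    obtain ⟨C, hC⟩ := h.bdd
    exact ⟨C, fun z hz => (norm_star (F z)).trans_le (hC z hz)⟩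
  cont := h.cont'
  cont' := fun ξ => by
    simp only [star_star]
    exact h.cont ξ

lemma SC.const (T : H →L[ℂ] H) : SC D fun _ => T where
  bdd := ⟨‖T‖, fun _ _ => le_refl _⟩
  cont := fun _ => continuousOn_const
  cont' := fun _ => continuousOn_const

lemma SC.add (h : SC D F) (h' : SC D F') : SC D fun z => F z + F' z where
  bdd := by
    obtain ⟨C, hC⟩ := h.bdd
    obtain ⟨C', hC'⟩ := h'.bdd
    exact ⟨C + C', fun z hz => (norm_add_le _ _).trans (add_le_add (hC z hz) (hC' z hz))⟩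
  cont := fun ξ => (h.cont ξ).add (h'.cont ξ)
  cont' := fun ξ => by
    simp only [star_add]
    exact (h.cont' ξ).add (h'.cont' ξ)

lemma SC.neg (h : SC D F) : SC D fun z => -F z where
  bdd := by
    obtain ⟨C, hC⟩ := h.bdd
    exact ⟨C, fun z hz => (norm_neg (F z)).trans_le (hC z hz)⟩
  cont := fun ξ => (h.cont ξ).neg
  cont' := fun ξ => by
    simp only [star_neg]
    exact (h.cont' ξ).neg

lemma SC.sub (h : SC D F) (h' : SC D F') : SC D fun z => F z - F' z := by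
  simp only [sub_eq_add_neg]
  exact h.add h'.neg

lemma mul_contOn {ξ : H} (h : SC D F) (h' : SC D F') :
    ContinuousOn (fun z => (F z * F' z) ξ) D := by
  obtain ⟨C, hC⟩ := h.bdd
  intro z0 hz0
  have h1 : Tendsto (fun z => F' z ξ - F' z0 ξ) (𝓝[D] z0) (𝓝 0) :=
    tendsto_sub_nhds_zero_iff.mpr (h'.cont ξ z0 hz0)
  have h2 : Tendsto (fun z => F z (F' z0 ξ)) (𝓝[D] z0) (𝓝 (F z0 (F' z0 ξ))) :=
    h.cont (F' z0 ξ) z0 hz0
  have h3 : Tendsto (fun z => F z (F' z ξ - F' z0 ξ)) (𝓝[D] z0) (𝓝 0) := by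
    refine squeeze_zero_norm' (a := fun z => C * ‖F' z ξ - F' z0 ξ‖) ?_ ?_
    · filter_upwards [self_mem_nhdsWithin] with z hz
      exact ((F z).le_opNorm _).trans (mul_le_mul_of_nonneg_right (hC z hz) (norm_nonneg _))
    · have := (h1.norm).const_mul C
      simpa using this
  have h4 := h3.add h2
  rw [zero_add] at h4
  refine h4.congr fun z => ?_
  rw [map_sub, sub_add_cancel, mul_ap]

lemma SC.mul (h : SC D F) (h' : SC D F') : SC D fun z => F z * F' z where
  bdd := by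
    obtain ⟨C, hC⟩ := h.bdd
    obtain ⟨C', hC'⟩ := h'.bdd
    refine ⟨C * C', fun z hz => (norm_mul_le _ _).trans ?_⟩
    exact mul_le_mul (hC z hz) (hC' z hz) (norm_nonneg _) ((norm_nonneg _).trans (hC z hz))
  cont := fun ξ => mul_contOn h h'
  cont' := fun ξ => by
    simp only [star_mul]
    exact mul_contOn h'.star h.star

lemma SC.sum {ι : Type} (s : Finset ι) {F : ι → Z → (H →L[ℂ] H)} (h : ∀ i ∈ s, SC D (F i)) :
    SC D fun z => ∑ i ∈ s, F i z := by
  classical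
  induction s using Finset.induction_on with
  | empty => simpa using SC.const (D := D) (0 : H →L[ℂ] H)
  | insert x s hx ih =>
    simp only [Finset.sum_insert hx]
    exact (h x (Finset.mem_insert_self _ _)).add (ih fun i hi => h i (Finset.mem_insert_of_mem hi))

/-- norm continuous bounded functions -/
lemma SC.of_contOn (h : ContinuousOn F D) {C : ℝ} (hC : ∀ z ∈ D, ‖F z‖ ≤ C) : SC D F where
  bdd := ⟨C, hC⟩
  cont := fun ξ => by
    have : Continuous fun T : H →L[ℂ] H => T ξ := (ContinuousLinearMap.apply ℂ H ξ).continuous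
    exact this.comp_continuousOn h
  cont' := fun ξ => by
    have : Continuous fun T : H →L[ℂ] H => (Star.star T) ξ :=
      (ContinuousLinearMap.apply ℂ H ξ).continuous.comp continuous_star
    exact this.comp_continuousOn h

lemma SC.congr (h : SC D F) (h' : ∀ z ∈ D, F z = F' z) : SC D F' where
  bdd := by
    obtain ⟨C, hC⟩ := h.bdd
    exact ⟨C, fun z hz => by rw [← h' z hz]; exact hC z hz⟩
  cont := fun ξ => (h.cont ξ).congr fun z hz => by simp only [h' z hz]
  cont' := fun ξ => (h.cont' ξ).congr fun z hz => by simp only [h' z hz]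

lemma SC.mono {D' : Set Z} (h : SC D F) (h' : D' ⊆ D) : SC D' F where
  bdd := by
    obtain ⟨C, hC⟩ := h.bdd
    exact ⟨C, fun z hz => hC z (h' hz)⟩
  cont := fun ξ => (h.cont ξ).mono h'
  cont' := fun ξ => (h.cont' ξ).mono h'

lemma SC.comp {Z' : Type} [TopologicalSpace Z'] {D' : Set Z'} (h : SC D F) {φ : Z' → Z}
    (hφ : ContinuousOn φ D') (hm : ∀ z ∈ D', φ z ∈ D) : SC D' fun z => F (φ z) where
  bdd := by
    obtain ⟨C, hC⟩ := h.bdd
    exact ⟨C, fun z hz => hC _ (hm z hz)⟩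
  cont := fun ξ => (h.cont ξ).comp hφ hm
  cont' := fun ξ => (h.cont' ξ).comp hφ hm

/-- gluing along the level set of a continuous function -/
lemma SC.ite {φ : Z → ℝ} (hφ : Continuous φ) {c : ℝ} (h : SC (D ∩ {z | φ z ≤ c}) F)
    (h' : SC (D ∩ {z | c ≤ φ z}) F') (he : ∀ z ∈ D, φ z = c → F z = F' z) :
    SC D fun z => if φ z ≤ c then F z else F' z := by
  have key : ∀ {α : Type} [TopologicalSpace α] (f f' : Z → α),
      ContinuousOn f (D ∩ {z | φ z ≤ c}) → ContinuousOn f' (D ∩ {z | c ≤ φ z}) →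
      (∀ z ∈ D, φ z = c → f z = f' z) →
      ContinuousOn (fun z => if φ z ≤ c then f z else f' z) D := by
    intro α _ f f' hf hf' hff
    have h1 : D = (D ∩ {z | φ z ≤ c}) ∪ (D ∩ {z | c ≤ φ z}) := by
      rw [← Set.inter_union_distrib_left]
      ext z
      simp only [Set.mem_inter_iff, Set.mem_union, Set.mem_ofPred_eq, iff_self_and]
      exact fun _ => le_total _ _
    intro z hz
    have hA : ContinuousOn (fun z => if φ z ≤ c then f z else f' z) (D ∩ {z | φ z ≤ c}) :=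
      hf.congr fun y hy => if_pos hy.2
    have hB : ContinuousOn (fun z => if φ z ≤ c then f z else f' z) (D ∩ {z | c ≤ φ z}) := by
      refine hf'.congr fun y hy => ?_
      have hy2 : c ≤ φ y := hy.2
      by_cases hle : φ y ≤ c
      · rw [if_pos hle]
        exact hff y hy.1 (le_antisymm hle hy2)
      · rw [if_neg hle]
    rcases lt_trichotomy (φ z) c with hlt | heq | hgt
    · have hn : 𝓝[D] z = 𝓝[D ∩ {z | φ z ≤ c}] z := by
        symm
        refine nhdsWithin_inter_of_mem' ?_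
        refine mem_nhdsWithin_of_mem_nhds ?_
        have : {z | φ z < c} ∈ 𝓝 z := (isOpen_lt hφ continuous_const).mem_nhds hlt
        exact Filter.mem_of_superset this fun y hy => show φ y ≤ c from le_of_lt hy
      rw [ContinuousWithinAt, hn]
      exact hA z ⟨hz, hlt.le⟩
    · rw [h1]
      exact (hA z ⟨hz, heq.le⟩).union (hB z ⟨hz, heq.ge⟩)
    · have hn : 𝓝[D] z = 𝓝[D ∩ {z | c ≤ φ z}] z := by
        symm
        refine nhdsWithin_inter_of_mem' ?_
        refine mem_nhdsWithin_of_mem_nhds ?_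
        have : {z | c < φ z} ∈ 𝓝 z := (isOpen_lt continuous_const hφ).mem_nhds hgt
        exact Filter.mem_of_superset this fun y hy => show c ≤ φ y from le_of_lt hy
      rw [ContinuousWithinAt, hn]
      exact hB z ⟨hz, hgt.le⟩
  obtain ⟨C, hC⟩ := h.bdd
  obtain ⟨C', hC'⟩ := h'.bdd
  refine ⟨⟨max C C', fun z hz => ?_⟩, fun ξ => ?_, fun ξ => ?_⟩
  · split_ifs with hle
    · exact (hC z ⟨hz, hle⟩).trans (le_max_left _ _)
    · exact (hC' z ⟨hz, (not_le.mp hle).le⟩).trans (le_max_right _ _)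
  · have := key (fun z => F z ξ) (fun z => F' z ξ) (h.cont ξ) (h'.cont ξ)
      (fun z hz hc => by rw [he z hz hc])
    refine this.congr fun z _ => ?_
    simp only
    split_ifs <;> rfl
  · have := key (fun z => (Star.star (F z)) ξ) (fun z => (Star.star (F' z)) ξ) (h.cont' ξ)
      (h'.cont' ξ) (fun z hz hc => by rw [he z hz hc])
    refine this.congr fun z _ => ?_
    simp only
    split_ifs <;> rfl

lemma SC.bs_aux {T : ℕ → Z → (H →L[ℂ] H)} {C : ℝ} (hT : ∀ m, SC D (T m))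
    (hC : ∀ m, ∀ z ∈ D, ‖T m z‖ ≤ C) (ξ : H) :
    ContinuousOn (fun z => bs A (fun m => T m z) ξ) D := by
  intro z0 hz0
  rw [ContinuousWithinAt, tendsto_iff_norm_sub_tendsto_zero]
  have h0 : 0 ≤ C := (norm_nonneg _).trans (hC 0 z0 hz0)
  have hsq : Tendsto (fun z => ∑' m, ‖(T m z - T m z0) ((Star.star (A.R m)) ξ)‖ ^ 2)
      (𝓝[D] z0) (𝓝 (∑' _ : ℕ, (0 : ℝ))) := by
    refine tendsto_tsum_of_dominated_convergence
      (bound := fun m => (2 * C) ^ 2 * ‖(Star.star (A.R m)) ξ‖ ^ 2) ?_ ?_ ?_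
    · exact (A.parseval ξ).summable.mul_left _
    · intro m
      have h1 := (hT m).cont ((Star.star (A.R m)) ξ) z0 hz0
      have h2 : Tendsto (fun z => T m z ((Star.star (A.R m)) ξ) -
          T m z0 ((Star.star (A.R m)) ξ)) (𝓝[D] z0) (𝓝 0) := tendsto_sub_nhds_zero_iff.mpr h1
      have h3 := (h2.norm).pow 2
      rw [norm_zero] at h3
      norm_num at h3
      exact h3
    · filter_upwards [self_mem_nhdsWithin] with z hz m
      rw [Real.norm_of_nonneg (by positivity), ← mul_pow]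
      refine pow_le_pow_left₀ (norm_nonneg _) ?_ 2
      refine ((T m z - T m z0).le_opNorm _).trans (mul_le_mul_of_nonneg_right ?_ (norm_nonneg _))
      calc ‖T m z - T m z0‖ ≤ ‖T m z‖ + ‖T m z0‖ := norm_sub_le _ _
        _ ≤ 2 * C := by linarith [hC m z hz, hC m z0 hz0]
  rw [tsum_zero] at hsq
  have hs2 : Tendsto (fun z => √(∑' m, ‖(T m z - T m z0) ((Star.star (A.R m)) ξ)‖ ^ 2))
      (𝓝[D] z0) (𝓝 0) := by
    have := (Real.continuous_sqrt.tendsto 0).comp hsq
    rwa [Real.sqrt_zero] at this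
  refine hs2.congr' ?_
  filter_upwards [self_mem_nhdsWithin] with z hz
  have h4 : ∀ m, ‖T m z - T m z0‖ ≤ 2 * C := fun m =>
    (norm_sub_le _ _).trans (by linarith [hC m z hz, hC m z0 hz0])
  have h5 := (hasSum_bs A h4 ξ).tsum_eq
  rw [h5, Real.sqrt_sq (norm_nonneg _), bs_sub A (fun m => hC m z hz) (fun m => hC m z0 hz0)]
  rfl

lemma SC.bs {T : ℕ → Z → (H →L[ℂ] H)} {C : ℝ} (hT : ∀ m, SC D (T m))
    (hC : ∀ m, ∀ z ∈ D, ‖T m z‖ ≤ C) : SC D fun z => bs A (fun m => T m z) where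
  bdd := ⟨C, fun z hz => norm_bs_le A fun m => hC m z hz⟩
  cont := fun ξ => SC.bs_aux A hT hC ξ
  cont' := fun ξ => by
    refine (SC.bs_aux A (fun m => (hT m).star) (C := C)
      (fun m z hz => (norm_star _).trans_le (hC m z hz)) ξ).congr fun z hz => ?_
    simp only
    rw [bs_star A fun m => hC m z hz]

end SC

end

end Pool.Agent.Y269.EL
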