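import Pool.Agent.Y269.EL.Base

/-!
Rank one operators and operators with rank one rows.
-/

set_option autoImplicit false

namespace Pool.Agent.Y269.EL

set_option linter.unusedSectionVars false

open Filter Topology Set
open scoped InnerProductSpace

noncomputable section

variable {H : Type} [NormedAddCommGroup H] [InnerProductSpace ℂ H] [CompleteSpace H]
variable (A : Amb H)

/-- the rank one operator `ξ ↦ ⟪y, ξ⟫ x` -/
def rk (x y : H) : H →L[ℂ] H := (innerSL ℂ y).smulRight x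

lemma rk_ap (x y ξ : H) : rk x y ξ = ⟪y, ξ⟫_ℂ • x := rfl

lemma rk_star (x y : H) : star (rk x y) = rk y x := by
  rw [ContinuousLinearMap.star_eq_adjoint]
  symm
  rw [ContinuousLinearMap.eq_adjoint_iff]
  intro u v
  rw [rk_ap, rk_ap, inner_smul_left, inner_smul_right, inner_conj_symm, mul_comm]

lemma mul_rk (S : H →L[ℂ] H) (x y : H) : S * rk x y = rk (S x) y := by
  ext ξ
  rw [mul_ap, rk_ap, rk_ap, map_smul]

lemma rk_mul (S : H →L[ℂ] H) (x y : H) : rk x y * S = rk x ((star S) y) := by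
  ext ξ
  rw [mul_ap, rk_ap, rk_ap, inner_star]

lemma rk_rk (x y z t : H) : rk x y * rk z t = ⟪y, z⟫_ℂ • rk x t := by
  ext ξ
  rw [mul_ap, rk_ap, rk_ap, inner_smul_right, smul_apply, rk_ap, mul_comm,
    mul_smul]

lemma norm_rk_le (x y : H) : ‖rk x y‖ ≤ ‖x‖ * ‖y‖ := by
  refine ContinuousLinearMap.opNorm_le_bound _ (by positivity) fun ξ => ?_
  rw [rk_ap, norm_smul]
  calc ‖⟪y, ξ⟫_ℂ‖ * ‖x‖ ≤ (‖y‖ * ‖ξ‖) * ‖x‖ :=
        mul_le_mul_of_nonneg_right (norm_inner_le_norm _ _) (norm_nonneg _)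
    _ = ‖x‖ * ‖y‖ * ‖ξ‖ := by ring

lemma rk_sub (x x' y : H) : rk x y - rk x' y = rk (x - x') y := by
  ext ξ
  rw [sub_apply, rk_ap, rk_ap, rk_ap, smul_sub]

lemma continuous_rk_left (y : H) : Continuous fun x => rk x y := by
  refine continuous_iff_continuousAt.mpr fun x => ?_
  rw [ContinuousAt, tendsto_iff_norm_sub_tendsto_zero]
  have h1 : Tendsto (fun x' => ‖x' - x‖ * ‖y‖) (𝓝 x) (𝓝 0) := by
    have := ((tendsto_iff_norm_sub_tendsto_zero.mp (tendsto_id (x := 𝓝 x))).mul_const ‖y‖)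
    rwa [zero_mul] at this
  refine squeeze_zero (fun _ => norm_nonneg _) (fun x' => ?_) h1
  rw [rk_sub]
  exact norm_rk_le _ _

/-- the operator `∑ R (ν j) |x j⟩⟨b j|` -/
def Zc (ν : ℕ → ℕ) (x : ℕ → H) : H →L[ℂ] H := asmI A ν fun j => rk (x j) (A.b j)

section

variable {ν : ℕ → ℕ} {x x' : ℕ → H} {C C' : ℝ}

lemma hasSum_b (f : H) : HasSum (fun j => ‖⟪A.b j, f⟫_ℂ‖ ^ 2) (‖f‖ ^ 2) := by
  have h := lp.hasSum_norm (p := 2) (by norm_num) (A.b.repr f)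
  rw [LinearIsometryEquiv.norm_map] at h
  have h2 : (2 : ENNReal).toReal = ((2 : ℕ) : ℝ) := by norm_num
  rw [h2] at h
  simp only [Real.rpow_natCast, A.b.repr_apply_apply] at h
  exact h

lemma Zc_bound (hC : ∀ j, ‖x j‖ ≤ C) (N : ℕ) (f : H) :
    ∑ j ∈ Finset.range N, ‖rk (x j) (A.b j) f‖ ^ 2 ≤ C ^ 2 * ‖f‖ ^ 2 := by
  calc ∑ j ∈ Finset.range N, ‖rk (x j) (A.b j) f‖ ^ 2
      ≤ ∑ j ∈ Finset.range N, C ^ 2 * ‖⟪A.b j, f⟫_ℂ‖ ^ 2 := by
        refine Finset.sum_le_sum fun j _ => ?_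
        rw [rk_ap, norm_smul, mul_pow, mul_comm]
        exact mul_le_mul_of_nonneg_right (pow_le_pow_left₀ (norm_nonneg _) (hC j) 2)
          (sq_nonneg _)
    _ = C ^ 2 * ∑ j ∈ Finset.range N, ‖⟪A.b j, f⟫_ℂ‖ ^ 2 := by rw [Finset.mul_sum]
    _ ≤ C ^ 2 * ‖f‖ ^ 2 := by
        refine mul_le_mul_of_nonneg_left ?_ (sq_nonneg _)
        exact sum_le_hasSum _ (fun _ _ => by positivity) (hasSum_b A f)

variable (hν : Function.Injective ν) (hC : ∀ j, ‖x j‖ ≤ C)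

include hν hC

lemma Zc_row (j : ℕ) : star (A.R (ν j)) * Zc A ν x = rk (x j) (A.b j) :=
  asmI_row A hν ((norm_nonneg _).trans (hC 0)) (Zc_bound A hC) j

lemma Zc_row_ne {m : ℕ} (hm : ∀ j, ν j ≠ m) : star (A.R m) * Zc A ν x = 0 :=
  asmI_row_ne A hν ((norm_nonneg _).trans (hC 0)) (Zc_bound A hC) hm

lemma norm_Zc_le : ‖Zc A ν x‖ ≤ C :=
  norm_asmI_le A hν ((norm_nonneg _).trans (hC 0)) (Zc_bound A hC)

lemma hasSum_Zc (ξ : H) :
    HasSum (fun j => ‖x j‖ ^ 2 * ‖⟪A.b j, ξ⟫_ℂ‖ ^ 2) (‖Zc A ν x ξ‖ ^ 2) := by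
  have h := hasSum_asmI A hν ((norm_nonneg _).trans (hC 0)) (Zc_bound A hC) ξ
  have h2 : (fun j => ‖rk (x j) (A.b j) ξ‖ ^ 2) =
      fun j => ‖x j‖ ^ 2 * ‖⟪A.b j, ξ⟫_ℂ‖ ^ 2 := by
    funext j
    rw [rk_ap, norm_smul]
    ring
  rwa [h2] at h

lemma Zc_unique {Y : H →L[ℂ] H} (h1 : ∀ j, star (A.R (ν j)) * Y = rk (x j) (A.b j))
    (h2 : ∀ m, (∀ j, ν j ≠ m) → star (A.R m) * Y = 0) : Zc A ν x = Y :=
  asmI_unique A hν ((norm_nonneg _).trans (hC 0)) (Zc_bound A hC) h1 h2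

lemma Zc_sub (hC' : ∀ j, ‖x' j‖ ≤ C') : Zc A ν x - Zc A ν x' = Zc A ν fun j => x j - x' j := by
  symm
  refine Zc_unique A hν (C := C + C') (fun j => (norm_sub_le _ _).trans
    (add_le_add (hC j) (hC' j))) (fun j => ?_) fun m hm => ?_
  · rw [mul_sub, Zc_row A hν hC, Zc_row A hν hC', rk_sub]
  · rw [mul_sub, Zc_row_ne A hν hC hm, Zc_row_ne A hν hC' hm, sub_zero]

omit hC in
lemma Zc_isom (h1 : ∀ j, ‖x j‖ = 1) : star (Zc A ν x) * Zc A ν x = 1 := by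
  have hn : ∀ ξ, ‖Zc A ν x ξ‖ ^ 2 = ‖ξ‖ ^ 2 := by
    intro ξ
    have h := hasSum_Zc A hν (fun j => (h1 j).le) ξ
    have h2 := hasSum_b A ξ
    have h3 : (fun j => ‖x j‖ ^ 2 * ‖⟪A.b j, ξ⟫_ℂ‖ ^ 2) = fun j => ‖⟪A.b j, ξ⟫_ℂ‖ ^ 2 := by
      funext j
      rw [h1]
      ring
    rw [h3] at h
    exact h.unique h2
  have hn' : ∀ ξ, ‖Zc A ν x ξ‖ = ‖ξ‖ := fun ξ =>
    (pow_left_inj₀ (norm_nonneg _) (norm_nonneg _) two_ne_zero).mp (hn ξ)
  have h4 := (ContinuousLinearMap.norm_map_iff_adjoint_comp_self (Zc A ν x)).mp hn'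
  exact h4

end

include A in
lemma exists_unit : ∃ e : H, ‖e‖ = 1 := ⟨A.b 0, A.b.orthonormal.1 0⟩

/-- strong continuity of the operators with rank one rows -/
lemma SC.Zc {Z : Type} [TopologicalSpace Z] {D : Set Z} {ν : ℕ → ℕ}
    (hν : Function.Injective ν) {x : ℕ → Z → H} {C : ℝ} (hx : ∀ j, ContinuousOn (x j) D)
    (hC : ∀ j, ∀ z ∈ D, ‖x j z‖ ≤ C) (hC0 : 0 ≤ C) :
    SC D fun z => Zc A ν fun j => x j z := by
  classical
  obtain ⟨e, he⟩ := exists_unit A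
  set T : ℕ → Z → (H →L[ℂ] H) := fun m z =>
    if h : ∃ j, ν j = m then rk (x h.choose z) e else 0 with hT
  have hT1 : ∀ j z, T (ν j) z = rk (x j z) e := by
    intro j z
    have h : ∃ i, ν i = ν j := ⟨j, rfl⟩
    simp only [hT]
    rw [dif_pos h, hν h.choose_spec]
  have hTb : ∀ m, ∀ z ∈ D, ‖T m z‖ ≤ C := by
    intro m z hz
    simp only [hT]
    split_ifs with h
    · refine (norm_rk_le _ _).trans ?_
      rw [he, mul_one]
      exact hC _ z hz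
    · rw [norm_zero]; exact hC0
  have hTc : ∀ m, SC D (T m) := by
    intro m
    refine SC.of_contOn ?_ (hTb m)
    by_cases h : ∃ j, ν j = m
    · have : T m = fun z => rk (x h.choose z) e := by
        funext z
        simp only [hT]
        rw [dif_pos h]
      rw [this]
      exact (continuous_rk_left e).comp_continuousOn (hx _)
    · have : T m = fun z => 0 := by
        funext z
        simp only [hT]
        rw [dif_neg h]
      rw [this]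
      exact continuousOn_const
  have h1 := (SC.bs A hTc hTb).mul (SC.const (D := D) (EL.Zc A ν fun _ => e))
  refine h1.congr fun z hz => ?_
  symm
  have he' : ∀ _ : ℕ, ‖e‖ ≤ 1 := fun _ => he.le
  refine Zc_unique A hν (fun j => hC j z hz) (fun j => ?_) fun m hm => ?_
  · rw [← mul_assoc, bs_row A (fun m => hTb m z hz), mul_assoc, Zc_row A hν he', hT1, rk_rk,
      inner_self_eq_norm_sq_to_K, he]
    norm_num
  · rw [← mul_assoc, bs_row A (fun m => hTb m z hz), mul_assoc, Zc_row_ne A hν he' hm, mul_zero]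

lemma SC.smul {Z : Type} [TopologicalSpace Z] {D : Set Z} {F : Z → (H →L[ℂ] H)} {c : Z → ℂ}
    {C : ℝ} (hc : ContinuousOn c D) (hC : ∀ z ∈ D, ‖c z‖ ≤ C) (h : SC D F) :
    SC D fun z => c z • F z := by
  have h1 : SC D fun z => c z • (1 : H →L[ℂ] H) := by
    refine SC.of_contOn (C := C) (hc.smul continuousOn_const) fun z hz => ?_
    rw [norm_smul]
    have h2 : ‖(1 : H →L[ℂ] H)‖ ≤ 1 := norm_le_one_of_isom (by simp)
    calc ‖c z‖ * ‖(1 : H →L[ℂ] H)‖ ≤ C * 1 :=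
          mul_le_mul (hC z hz) h2 (norm_nonneg _) ((norm_nonneg _).trans (hC z hz))
      _ = C := mul_one C
  refine (h1.mul h).congr fun z _ => ?_
  rw [smul_mul_assoc, one_mul]

end

end Pool.Agent.Y269.EL
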