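import Pool.Agent.Y269.EL.Stm2
import Pool.Agent.Y269.EL.Base2

/-!
The C*-algebras of the stages, the connecting maps, and the assembly of the counterexample.
-/

set_option autoImplicit false

namespace Pool.Agent.Y269.EL

set_option linter.unusedSectionVars false

open Filter Topology Set
open scoped InnerProductSpace
open Pool.Agent.Y269.ElliottDef

noncomputable section

variable {H : Type} [NormedAddCommGroup H] [InnerProductSpace ℂ H] [CompleteSpace H]

/-! ### a pair of isometries -/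

section pair

variable (A : Amb H)

lemma odd_inj : Function.Injective fun i : ℕ => 2 * i + 1 := fun i j h => by
  have h' : 2 * i + 1 = 2 * j + 1 := h
  omega

lemma pair_bound (N : ℕ) (f : H) :
    ∑ i ∈ Finset.range N, ‖(star (A.R i)) f‖ ^ 2 ≤ (1 : ℝ) ^ 2 * ‖f‖ ^ 2 := by
  rw [one_pow, one_mul]
  exact sum_R_le A N f

/-- an isometry moving the range of `R i` to the range of `R (ν i)` -/
def mv (ν : ℕ → ℕ) : H →L[ℂ] H := asmI A ν fun i => star (A.R i)

lemma mv_row {ν : ℕ → ℕ} (hν : Function.Injective ν) (i : ℕ) :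
    star (A.R (ν i)) * mv A ν = star (A.R i) := asmI_row A hν zero_le_one (pair_bound A) i

lemma mv_row_ne {ν : ℕ → ℕ} (hν : Function.Injective ν) {m : ℕ} (hm : ∀ i, ν i ≠ m) :
    star (A.R m) * mv A ν = 0 := asmI_row_ne A hν zero_le_one (pair_bound A) hm

lemma mv_mul_R {ν : ℕ → ℕ} (hν : Function.Injective ν) (i : ℕ) :
    mv A ν * A.R i = A.R (ν i) := by
  refine ext_R A fun m => ?_
  by_cases h : ∃ j, ν j = m
  · obtain ⟨j, rfl⟩ := h
    rw [← mul_assoc, mv_row A hν, A.R_orth, A.R_orth]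
    by_cases hij : j = i
    · rw [if_pos hij, if_pos (by rw [hij])]
    · rw [if_neg hij, if_neg fun h => hij (hν h)]
  · push Not at h
    rw [← mul_assoc, mv_row_ne A hν h, zero_mul, R_ne A fun he => h i he.symm]

lemma mv_star_row {ν : ℕ → ℕ} (hν : Function.Injective ν) (i : ℕ) :
    star (A.R i) * star (mv A ν) = star (A.R (ν i)) := by
  rw [← star_mul, mv_mul_R A hν]

include A in
lemma exists_pair : ∃ S1 S2 : H →L[ℂ] H, star S1 * S1 = 1 ∧ star S2 * S2 = 1 ∧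
    star S1 * S2 = 0 ∧ S1 * star S1 + S2 * star S2 = 1 := by
  refine ⟨mv A fun i => 2 * i, mv A fun i => 2 * i + 1, ?_, ?_, ?_, ?_⟩
  · refine ext_R A fun m => ?_
    rw [← mul_assoc, mv_star_row A two_inj, mv_row A two_inj, mul_one]
  · refine ext_R A fun m => ?_
    rw [← mul_assoc, mv_star_row A odd_inj, mv_row A odd_inj, mul_one]
  · refine ext_R A fun m => ?_
    rw [← mul_assoc, mv_star_row A two_inj, mul_zero, mv_row_ne A odd_inj]
    intro i
    omega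
  · refine ext_R A fun m => ?_
    rw [mul_add, mul_one, ← mul_assoc, ← mul_assoc]
    rcases Nat.even_or_odd' m with ⟨j, hj | hj⟩
    · have h1 : star (A.R m) * mv A (fun i => 2 * i) = star (A.R j) := by
        rw [hj]
        exact mv_row A two_inj j
      have h2 : star (A.R m) * mv A (fun i => 2 * i + 1) = 0 := by
        refine mv_row_ne A odd_inj fun i => ?_
        omega
      rw [h1, h2, zero_mul, add_zero, mv_star_row A two_inj, hj]
    · have h1 : star (A.R m) * mv A (fun i => 2 * i + 1) = star (A.R j) := by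
        rw [hj]
        exact mv_row A odd_inj j
      have h2 : star (A.R m) * mv A (fun i => 2 * i) = 0 := by
        refine mv_row_ne A two_inj fun i => ?_
        omega
      rw [h1, h2, zero_mul, zero_add, mv_star_row A odd_inj, hj]

end pair

/-! ### the algebra of a stage -/

/-- the functions of a stage, restricted to the domain -/
def KE (A : Amb H) (G : Geo H) : Set (↥(Dom A G.d) → (H →L[ℂ] H)) :=
  {F | ∃ F', IsE A G F' ∧ ∀ z : ↥(Dom A G.d), F z = F' z.1.1 z.1.2.1 z.1.2.2.1 z.1.2.2.2}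

/-- a point of the domain -/
def pt {A : Amb H} {G : Geo H} {t : ℝ} {u v : Pt} {g : H →L[ℂ] H} (ht : t ∈ Icc (0 : ℝ) 1)
    (hu : u ∈ XX G.d) (hv : v ∈ XX G.d) (hg : g ∈ GM A) : ↥(Dom A G.d) :=
  ⟨(t, u, v, g), ⟨ht, hu, hv, hg⟩⟩

lemma KE_isFA (hI : IseStmt H) (A : Amb H) {G : Geo H} (hG : G.OK) : IsFA (KE A G) where
  bdd := by
    rintro F ⟨F', hF', h⟩
    obtain ⟨C, hC⟩ := hF'.sc.bdd
    exact ⟨C, fun z => by rw [h]; exact hC z.1 z.2⟩
  scal := fun c => ⟨_, hI.scal A G hG c, fun _ => rfl⟩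
  add := by
    rintro F ⟨F1, hF1, h1⟩ F' ⟨F2, hF2, h2⟩
    exact ⟨_, hI.add A G hG _ _ hF1 hF2, fun z => by
      show F z + F' z = _
      rw [h1, h2]⟩
  mul := by
    rintro F ⟨F1, hF1, h1⟩ F' ⟨F2, hF2, h2⟩
    exact ⟨_, hI.mul A G hG _ _ hF1 hF2, fun z => by
      show F z * F' z = _
      rw [h1, h2]⟩
  star := by
    rintro F ⟨F1, hF1, h1⟩
    exact ⟨_, hI.star A G hG _ hF1, fun z => by
      show star (F z) = _
      rw [h1]⟩
  lim := by
    classical
    intro F hF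
    set F0 : ℝ → Pt → Pt → (H →L[ℂ] H) → (H →L[ℂ] H) := fun t u v g =>
      if h : ((t, u, v, g) : ℝ × Pt × Pt × (H →L[ℂ] H)) ∈ Dom A G.d then F ⟨_, h⟩ else 0 with hF0
    have h1 : ∀ z : ↥(Dom A G.d), F z = F0 z.1.1 z.1.2.1 z.1.2.2.1 z.1.2.2.2 := by
      intro z
      simp only [hF0]
      rw [dif_pos z.2]
    refine ⟨F0, hI.lim A G hG F0 fun ε hε => ?_, h1⟩
    obtain ⟨F', ⟨F1, hF1, h2⟩, h3⟩ := hF ε hε
    refine ⟨F1, hF1, fun t ht u hu v hv g hg => ?_⟩
    have h4 := h3 (pt ht hu hv hg)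
    rw [h1, h2] at h4
    exact h4

section stage

variable (hF : FaStmt H) (hI : IseStmt H) (A : Amb H) {G : Geo H} (hG : G.OK)

/-- the representation of the algebra of a stage -/
def rep : FARep (KE A G) := (hF _ _ (KE_isFA hI A hG)).some

/-- the C*-algebra of a stage -/
abbrev ES : Type := (rep hF hI A hG).E

/-- a function representing an element -/
def raw (x : ES hF hI A hG) : ℝ → Pt → Pt → (H →L[ℂ] H) → (H →L[ℂ] H) :=
  ((rep hF hI A hG).mem x).choose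

lemma raw_isE (x : ES hF hI A hG) : IsE A G (raw hF hI A hG x) :=
  ((rep hF hI A hG).mem x).choose_spec.1

lemma raw_ev (x : ES hF hI A hG) (z : ↥(Dom A G.d)) :
    (rep hF hI A hG).ev z x = raw hF hI A hG x z.1.1 z.1.2.1 z.1.2.2.1 z.1.2.2.2 :=
  ((rep hF hI A hG).mem x).choose_spec.2 z

lemma raw_pt (x : ES hF hI A hG) {t : ℝ} {u v : Pt} {g : H →L[ℂ] H} (ht : t ∈ Icc (0 : ℝ) 1)
    (hu : u ∈ XX G.d) (hv : v ∈ XX G.d) (hg : g ∈ GM A) :
    raw hF hI A hG x t u v g = (rep hF hI A hG).ev (pt ht hu hv hg) x :=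
  (raw_ev hF hI A hG x (pt ht hu hv hg)).symm

lemma ES_ext {x y : ES hF hI A hG} (h : ∀ z, (rep hF hI A hG).ev z x = (rep hF hI A hG).ev z y) :
    x = y := by
  have h1 := (rep hF hI A hG).norm_le (x - y) 0 le_rfl fun z => by
    rw [map_sub, h z, sub_self, norm_zero]
  exact sub_eq_zero.mp (norm_le_zero_iff.mp h1)

/-- the element given by a function -/
def mk {F : ℝ → Pt → Pt → (H →L[ℂ] H) → (H →L[ℂ] H)} (h : IsE A G F) : ES hF hI A hG :=
  ((rep hF hI A hG).surj (fun z => F z.1.1 z.1.2.1 z.1.2.2.1 z.1.2.2.2)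
    ⟨F, h, fun _ => rfl⟩).choose

lemma ev_mk {F : ℝ → Pt → Pt → (H →L[ℂ] H) → (H →L[ℂ] H)} (h : IsE A G F)
    (z : ↥(Dom A G.d)) : (rep hF hI A hG).ev z (mk hF hI A hG h) =
      F z.1.1 z.1.2.1 z.1.2.2.1 z.1.2.2.2 :=
  ((rep hF hI A hG).surj (fun z => F z.1.1 z.1.2.1 z.1.2.2.1 z.1.2.2.2)
    ⟨F, h, fun _ => rfl⟩).choose_spec z

lemma ev_norm_le (x : ES hF hI A hG) (z : ↥(Dom A G.d)) : ‖(rep hF hI A hG).ev z x‖ ≤ ‖x‖ :=
  NonUnitalStarAlgHom.norm_apply_le ((rep hF hI A hG).ev z) x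

lemma one_mem_GM : (1 : H →L[ℂ] H) ∈ GM A := (GM A).one_mem

lemma ES_nontrivial [Nontrivial H] : Nontrivial (ES hF hI A hG) := by
  obtain ⟨u, hu⟩ := (hI.cpt G.d).2
  refine ⟨⟨1, 0, fun h => ?_⟩⟩
  have h1 := congrArg ((rep hF hI A hG).ev
    (pt (left_mem_Icc.mpr zero_le_one) hu hu (one_mem_GM A))) h
  rw [map_one, map_zero] at h1
  obtain ⟨e, he⟩ := exists_ne (0 : H)
  have h2 := congrArg (fun T : H →L[ℂ] H => T e) h1
  exact he h2

end stage

/-! ### the connecting maps -/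

section conn

variable (hF : FaStmt H) (hI : IseStmt H) (hP : PhiStmt H) (A : Amb H) {G : Geo H} (hG : G.OK)
  {D : Blk H} (hD : D.OK A G) (hG' : (G.next A D).OK)

include hP hD in
lemma conn_aux (x : ES hF hI A hG) :
    IsE A (G.next A D) (Phi A G D (raw hF hI A hG x)) :=
  hP.isE A G D hG hD _ (raw_isE hF hI A hG x)

/-- the connecting map -/
def conn : ES hF hI A hG →⋆ₐ[ℂ] ES hF hI A hG' where
  toFun x := mk hF hI A hG' (conn_aux hF hI hP A hG hD x)
  map_one' := by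
    refine ES_ext hF hI A hG' fun z => ?_
    obtain ⟨⟨t, u, v, g⟩, ht, hu, hv, hg⟩ := z
    rw [ev_mk, map_one]
    have h1 := hP.congr A G D hG hD (raw hF hI A hG 1) (fun _ _ _ _ => (1 : ℂ) • 1)
      (raw_isE hF hI A hG 1) (fun t ht u hu v hv g hg => by
        rw [raw_pt hF hI A hG 1 ht hu hv hg, map_one, one_smul]) t ht u hu v hv g hg
    rw [h1, hP.scal A G D hG hD 1 t ht u hu v hv g hg, one_smul]
  map_mul' x y := by
    refine ES_ext hF hI A hG' fun z => ?_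
    obtain ⟨⟨t, u, v, g⟩, ht, hu, hv, hg⟩ := z
    rw [map_mul, ev_mk, ev_mk, ev_mk]
    have h1 := hP.congr A G D hG hD (raw hF hI A hG (x * y))
      (fun t u v g => raw hF hI A hG x t u v g * raw hF hI A hG y t u v g)
      (raw_isE hF hI A hG _) (fun t ht u hu v hv g hg => by
        rw [raw_pt hF hI A hG _ ht hu hv hg, raw_pt hF hI A hG _ ht hu hv hg,
          raw_pt hF hI A hG _ ht hu hv hg, map_mul]) t ht u hu v hv g hg
    rw [h1]
    exact hP.mul A G D hG hD _ _ (raw_isE hF hI A hG x) (raw_isE hF hI A hG y) t ht u hu v hv g hg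
  map_zero' := by
    refine ES_ext hF hI A hG' fun z => ?_
    obtain ⟨⟨t, u, v, g⟩, ht, hu, hv, hg⟩ := z
    rw [ev_mk, map_zero]
    have h1 := hP.congr A G D hG hD (raw hF hI A hG 0) (fun _ _ _ _ => (0 : ℂ) • 1)
      (raw_isE hF hI A hG 0) (fun t ht u hu v hv g hg => by
        rw [raw_pt hF hI A hG 0 ht hu hv hg, map_zero, zero_smul]) t ht u hu v hv g hg
    rw [h1, hP.scal A G D hG hD 0 t ht u hu v hv g hg, zero_smul]
  map_add' x y := by
    refine ES_ext hF hI A hG' fun z => ?_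
    obtain ⟨⟨t, u, v, g⟩, ht, hu, hv, hg⟩ := z
    rw [map_add, ev_mk, ev_mk, ev_mk]
    have h1 := hP.congr A G D hG hD (raw hF hI A hG (x + y))
      (fun t u v g => raw hF hI A hG x t u v g + raw hF hI A hG y t u v g)
      (raw_isE hF hI A hG _) (fun t ht u hu v hv g hg => by
        rw [raw_pt hF hI A hG _ ht hu hv hg, raw_pt hF hI A hG _ ht hu hv hg,
          raw_pt hF hI A hG _ ht hu hv hg, map_add]) t ht u hu v hv g hg
    rw [h1]
    exact hP.add A G D hG hD _ _ (raw_isE hF hI A hG x) (raw_isE hF hI A hG y) t ht u hu v hv g hg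
  commutes' c := by
    refine ES_ext hF hI A hG' fun z => ?_
    obtain ⟨⟨t, u, v, g⟩, ht, hu, hv, hg⟩ := z
    have h0 : ∀ z', (rep hF hI A hG).ev z' (algebraMap ℂ _ c) = c • 1 := fun z' => by
      rw [AlgHomClass.commutes, Algebra.algebraMap_eq_smul_one]
    rw [ev_mk, AlgHomClass.commutes]
    have h2 : (algebraMap ℂ (H →L[ℂ] H)) c = c • 1 := Algebra.algebraMap_eq_smul_one c
    rw [h2]
    have h1 := hP.congr A G D hG hD (raw hF hI A hG (algebraMap ℂ _ c)) (fun _ _ _ _ => c • 1)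
      (raw_isE hF hI A hG _) (fun t ht u hu v hv g hg => by
        rw [raw_pt hF hI A hG _ ht hu hv hg, h0]) t ht u hu v hv g hg
    exact h1.trans (hP.scal A G D hG hD c t ht u hu v hv g hg)
  map_star' x := by
    refine ES_ext hF hI A hG' fun z => ?_
    obtain ⟨⟨t, u, v, g⟩, ht, hu, hv, hg⟩ := z
    rw [map_star, ev_mk, ev_mk]
    have h1 := hP.congr A G D hG hD (raw hF hI A hG (star x))
      (fun t u v g => star (raw hF hI A hG x t u v g))
      (raw_isE hF hI A hG _) (fun t ht u hu v hv g hg => by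
        rw [raw_pt hF hI A hG _ ht hu hv hg, raw_pt hF hI A hG _ ht hu hv hg, map_star]) t ht u hu v hv g hg
    rw [h1]
    exact hP.star A G D hG hD _ (raw_isE hF hI A hG x) t ht u hu v hv g hg

lemma ev_conn (x : ES hF hI A hG) {s : ℝ} {w w' : Pt} {g : H →L[ℂ] H} (hs : s ∈ Icc (0 : ℝ) 1)
    (hw : w ∈ XX (G.next A D).d) (hw' : w' ∈ XX (G.next A D).d) (hg : g ∈ GM A) :
    (rep hF hI A hG').ev (pt hs hw hw' hg) (conn hF hI hP A hG hD hG' x) =
      Phi A G D (raw hF hI A hG x) s w w' g :=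
  ev_mk hF hI A hG' (conn_aux hF hI hP A hG hD x) _

lemma raw_conn (x : ES hF hI A hG) {s : ℝ} {w w' : Pt} {g : H →L[ℂ] H} (hs : s ∈ Icc (0 : ℝ) 1)
    (hw : w ∈ XX (G.next A D).d) (hw' : w' ∈ XX (G.next A D).d) (hg : g ∈ GM A) :
    raw hF hI A hG' (conn hF hI hP A hG hD hG' x) s w w' g =
      Phi A G D (raw hF hI A hG x) s w w' g := by
  rw [← ev_conn hF hI hP A hG hD hG' x hs hw hw' hg, raw_pt hF hI A hG' _ hs hw hw' hg]

lemma exists_ne_of_ne {x : ES hF hI A hG} (hx : x ≠ 0) :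
    ∃ t ∈ Icc (0 : ℝ) 1, ∃ u ∈ XX G.d, ∃ v ∈ XX G.d, ∃ g ∈ GM A,
      raw hF hI A hG x t u v g ≠ 0 := by
  by_contra hcon
  push Not at hcon
  apply hx
  refine ES_ext hF hI A hG fun z => ?_
  obtain ⟨⟨t, u, v, g⟩, ht, hu, hv, hg⟩ := z
  rw [map_zero, raw_ev]
  exact hcon t ht u hu v hv g hg

/-- elements which are bounded below are invertible -/
lemma isUnit_of_lower {E : Type} [CStarAlgebra E] {T : Type} (ev : T → (E →⋆ₐ[ℂ] (H →L[ℂ] H)))
    (hn : ∀ (x : E) (C : ℝ), 0 ≤ C → (∀ t, ‖ev t x‖ ≤ C) → ‖x‖ ≤ C) (x : E) {δ : ℝ}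
    (hδ : 0 < δ) (h : ∀ t ξ, δ * ‖ξ‖ ^ 2 ≤ (⟪ξ, ev t x ξ⟫_ℂ).re) : IsUnit x := by
  set C0 : ℝ := ‖x‖ + 1 with hC0
  have hC0p : 0 < C0 := by positivity
  set C : ℝ := C0 ^ 2 / δ + δ with hC
  have hCp : 0 < C := by positivity
  have hδC : δ ≤ C := by
    have : 0 ≤ C0 ^ 2 / δ := by positivity
    linarith
  set y : E := 1 - ((C⁻¹ : ℝ) : ℂ) • x with hy
  have h1 : ∀ t, ‖ev t y‖ ≤ √(1 - δ / C) := by
    intro t
    refine ContinuousLinearMap.opNorm_le_bound _ (Real.sqrt_nonneg _) fun ξ => ?_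
    have h2 : ev t y ξ = ξ - ((C⁻¹ : ℝ) : ℂ) • ev t x ξ := by
      rw [hy, map_sub, map_one, map_smul]
      rfl
    have h3 : ‖ev t y ξ‖ ^ 2 ≤ (1 - δ / C) * ‖ξ‖ ^ 2 := by
      rw [h2, @norm_sub_sq ℂ]
      have h4 : RCLike.re ⟪ξ, ((C⁻¹ : ℝ) : ℂ) • ev t x ξ⟫_ℂ = C⁻¹ * (⟪ξ, ev t x ξ⟫_ℂ).re := by
        rw [inner_smul_right]
        simp
      have h5 : ‖((C⁻¹ : ℝ) : ℂ) • ev t x ξ‖ ^ 2 = (C⁻¹) ^ 2 * ‖ev t x ξ‖ ^ 2 := by
        rw [norm_smul, mul_pow, Complex.norm_real, Real.norm_of_nonneg (by positivity)]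
      rw [h4, h5]
      have h6 : ‖ev t x ξ‖ ≤ C0 * ‖ξ‖ := by
        refine ((ev t x).le_opNorm ξ).trans (mul_le_mul_of_nonneg_right ?_ (norm_nonneg _))
        have := NonUnitalStarAlgHom.norm_apply_le (ev t) x
        linarith
      have h7 : ‖ev t x ξ‖ ^ 2 ≤ C0 ^ 2 * ‖ξ‖ ^ 2 := by
        rw [← mul_pow]
        exact pow_le_pow_left₀ (norm_nonneg _) h6 2
      set q := (⟪ξ, ev t x ξ⟫_ℂ).re with hq
      have h8 : δ * ‖ξ‖ ^ 2 ≤ q := h t ξ
      have h9 : C0 ^ 2 * ‖ξ‖ ^ 2 ≤ C * q := by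
        have h10 : C0 ^ 2 * ‖ξ‖ ^ 2 = (C0 ^ 2 / δ) * (δ * ‖ξ‖ ^ 2) := by
          field_simp
        rw [h10]
        have hq0 : 0 ≤ q := le_trans (by positivity) h8
        calc (C0 ^ 2 / δ) * (δ * ‖ξ‖ ^ 2) ≤ (C0 ^ 2 / δ) * q :=
              mul_le_mul_of_nonneg_left h8 (by positivity)
          _ ≤ C * q := mul_le_mul_of_nonneg_right (by rw [hC]; linarith) hq0
      have h11 : (C⁻¹) ^ 2 * ‖ev t x ξ‖ ^ 2 ≤ C⁻¹ * q := by
        calc (C⁻¹) ^ 2 * ‖ev t x ξ‖ ^ 2 ≤ (C⁻¹) ^ 2 * (C * q) :=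
              mul_le_mul_of_nonneg_left (h7.trans h9) (by positivity)
          _ = C⁻¹ * q := by field_simp
      have h12 : C⁻¹ * (δ * ‖ξ‖ ^ 2) ≤ C⁻¹ * q := mul_le_mul_of_nonneg_left h8 (by positivity)
      have h13 : (1 - δ / C) * ‖ξ‖ ^ 2 = ‖ξ‖ ^ 2 - C⁻¹ * (δ * ‖ξ‖ ^ 2) := by
        field_simp
      rw [h13]
      linarith
    have h0 : 0 ≤ 1 - δ / C := by
      have : δ / C ≤ 1 := (div_le_one hCp).mpr hδC
      linarith
    rw [← Real.sqrt_sq (norm_nonneg (ev t y ξ)), ← Real.sqrt_sq (norm_nonneg ξ),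
      ← Real.sqrt_mul h0]
    exact Real.sqrt_le_sqrt h3
  have h2 : ‖y‖ < 1 := by
    refine lt_of_le_of_lt (hn y _ (Real.sqrt_nonneg _) h1) ?_
    rw [Real.sqrt_lt' one_pos, one_pow]
    have : 0 < δ / C := by positivity
    linarith
  have h3 : IsUnit (1 - y) := isUnit_one_sub_of_norm_lt_one h2
  have h4 : (1 - y) = ((C⁻¹ : ℝ) : ℂ) • x := by rw [hy]; abel
  rw [h4] at h3
  have h5 : x = ((C : ℝ) : ℂ) • (((C⁻¹ : ℝ) : ℂ) • x) := by
    rw [smul_smul]
    have : ((C : ℝ) : ℂ) * ((C⁻¹ : ℝ) : ℂ) = 1 := by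
      rw [← Complex.ofReal_mul, mul_inv_cancel₀ hCp.ne', Complex.ofReal_one]
    rw [this, one_smul]
  rw [h5]
  obtain ⟨U, hU⟩ := h3
  rw [← hU]
  have hc : ((C : ℝ) : ℂ) ≠ 0 := by
    exact_mod_cast hCp.ne'
  exact ((Units.mk0 _ hc) • U).isUnit

lemma conn_full (hFull : FullStmt H) {x : ES hF hI A hG} (hx : x ≠ 0)
    (I : TwoSidedIdeal (ES hF hI A hG')) (hxI : conn hF hI hP A hG hD hG' x ∈ I) : I = ⊤ := by
  obtain ⟨n, X, δ, hδ, hX, hlow⟩ := hFull A G D hG hD hG' _ (raw_isE hF hI A hG x)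
    (conn_aux hF hI hP A hG hD x) (exists_ne_of_ne hF hI A hG hx)
  set Φx := conn hF hI hP A hG hD hG' x with hΦ
  set y : Fin n → ES hF hI A hG' := fun i => mk hF hI A hG' (hX i) with hy
  set T : ES hF hI A hG' := ∑ i, star (y i) * (star Φx * Φx) * y i with hT
  have hTI : T ∈ I := by
    rw [hT]
    refine sum_mem fun i _ => ?_
    exact I.mul_mem_right _ _ (I.mul_mem_left _ _ (I.mul_mem_left _ _ hxI))
  have hu : IsUnit T := by
    refine isUnit_of_lower (rep hF hI A hG').ev (rep hF hI A hG').norm_le T hδ fun z ξ => ?_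
    obtain ⟨⟨t, u, v, g⟩, ht, hu, hv, hg⟩ := z
    refine (hlow t ht u hu v hv g hg ξ).trans (le_of_eq ?_)
    have h1 : (rep hF hI A hG').ev ⟨(t, u, v, g), ht, hu, hv, hg⟩ T =
        ∑ i, star (X i t u v g) * (star (Phi A G D (raw hF hI A hG x) t u v g) *
          Phi A G D (raw hF hI A hG x) t u v g) * X i t u v g := by
      rw [hT, map_sum]
      refine Finset.sum_congr rfl fun i _ => ?_
      rw [map_mul, map_mul, map_mul, map_star, map_star, hy]
      simp only [ev_mk]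
      rw [show (rep hF hI A hG').ev ⟨(t, u, v, g), ht, hu, hv, hg⟩ Φx =
        Phi A G D (raw hF hI A hG x) t u v g from ev_conn hF hI hP A hG hD hG' x ht hu hv hg]
    rw [h1, sum_apply, inner_sum, Complex.re_sum]
    refine Finset.sum_congr rfl fun i _ => ?_
    rw [mul_ap, mul_ap, mul_ap, inner_star', inner_star', inner_self_eq_norm_sq_to_K]
    norm_cast
  obtain ⟨U, hU⟩ := hu
  have h1 : (1 : ES hF hI A hG') ∈ I := by
    have := I.mul_mem_left (↑U⁻¹ : ES hF hI A hG') T hTI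
    rwa [← hU, Units.inv_mul] at this
  exact (TwoSidedIdeal.one_mem_iff I).mp h1

lemma conn_injective [Nontrivial H] (hFull : FullStmt H) :
    Function.Injective (conn hF hI hP A hG hD hG') := by
  rw [injective_iff_map_eq_zero]
  intro x hx
  by_contra hne
  have := conn_full hF hI hP A hG hD hG' hFull hne ⊥ (by
    rw [hx]
    exact TwoSidedIdeal.zero_mem _)
  have hnt := ES_nontrivial hF hI A hG'
  exact bot_ne_top this

lemma raw_proj {p : ES hF hI A hG} (hp : IsStarProjection p) :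
    ProjValued A G (raw hF hI A hG p) := by
  intro t ht u hu v hv g hg
  have h1 := raw_ev hF hI A hG p (pt ht hu hv hg)
  have h2 : raw hF hI A hG p t u v g = (rep hF hI A hG).ev (pt ht hu hv hg) p := h1.symm
  rw [h2, ← map_star, ← map_mul, hp.isSelfAdjoint.star_eq, hp.isIdempotentElem.eq]
  exact ⟨rfl, rfl⟩

lemma conn_proj [Nontrivial H] (hHom : HomStmt H) (hSec : SecStmt H) (hShift : ShiftStmt H)
    {p : ES hF hI A hG} (hp : IsStarProjection p) (hp0 : p ≠ 0) :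
    InfiniteProj (conn hF hI hP A hG hD hG' p) := by
  have hpv := raw_proj hF hI A hG hp
  obtain ⟨a, ha⟩ := hHom A G hG _ (raw_isE hF hI A hG p) hpv
  obtain ⟨μ, x, hx⟩ := hSec A G D hG hD _ (raw_isE hF hI A hG p) hpv
    (exists_ne_of_ne hF hI A hG hp0) a ha
  have hq : IsStarProjection (conn hF hI hP A hG hD hG' p) := hp.map _
  have hqv : ProjValued A (G.next A D) (Phi A G D (raw hF hI A hG p)) := by
    intro t ht u hu v hv g hg
    have := raw_proj hF hI A hG' hq t ht u hu v hv g hg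
    rwa [raw_conn hF hI hP A hG hD hG' p ht hu hv hg] at this
  obtain ⟨W, hW, h1, s, hs, w, hw, w', hw', g, hg, hne⟩ := hShift A G D hG hD hG' _
    (raw_isE hF hI A hG p) hpv (conn_aux hF hI hP A hG hD p) hqv μ x hx
  refine ⟨mk hF hI A hG' hW, ?_, ?_, fun hcon => hne ?_⟩
  · refine ES_ext hF hI A hG' fun z => ?_
    obtain ⟨⟨t, u, v, g⟩, ht, hu, hv, hg⟩ := z
    rw [map_mul, map_star, ev_mk,
      show (rep hF hI A hG').ev ⟨(t, u, v, g), ht, hu, hv, hg⟩ (conn hF hI hP A hG hD hG' p) =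
        Phi A G D (raw hF hI A hG p) t u v g from ev_conn hF hI hP A hG hD hG' p ht hu hv hg]
    exact (h1 t ht u hu v hv g hg).1
  · refine ES_ext hF hI A hG' fun z => ?_
    obtain ⟨⟨t, u, v, g⟩, ht, hu, hv, hg⟩ := z
    rw [map_mul, map_mul, map_star, ev_mk,
      show (rep hF hI A hG').ev ⟨(t, u, v, g), ht, hu, hv, hg⟩ (conn hF hI hP A hG hD hG' p) =
        Phi A G D (raw hF hI A hG p) t u v g from ev_conn hF hI hP A hG hD hG' p ht hu hv hg,
      ← mul_assoc]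
    have := (h1 t ht u hu v hv g hg).2
    simp only at this ⊢
    rw [this]
  · have h2 := congrArg ((rep hF hI A hG').ev (pt hs hw hw' hg)) hcon
    rw [map_mul, map_star, ev_mk, ev_conn hF hI hP A hG hD hG' p hs hw hw' hg] at h2
    exact h2

end conn

/-! ### the obstruction -/

lemma Good.congr {A : Amb H} {G : Geo H} {F F' : ℝ → Pt → Pt → (H →L[ℂ] H) → (H →L[ℂ] H)}
    (h : Good A G F) (he : ∀ t ∈ Icc (0 : ℝ) 1, ∀ u ∈ XX G.d, ∀ v ∈ XX G.d, ∀ g ∈ GM A,
      F t u v g = F' t u v g) : Good A G F' where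
  zero := by
    obtain ⟨I, l, J, ρ, h1, h2⟩ := h.zero
    refine ⟨I, l, J, ρ, h1, fun w hw ξ hξ => ?_⟩
    rw [← he 0 (left_mem_Icc.mpr zero_le_one) w hw w hw 1 (one_mem_GM A)]
    exact h2 w hw ξ hξ
  all := by
    intro t ht
    obtain ⟨I1, I2, l1, J1, ρ1, l2, J2, ρ2, h1, h2, h3⟩ := h.all t ht
    refine ⟨I1, I2, l1, J1, ρ1, l2, J2, ρ2, h1, h2, fun u hu v hv g hg ξ hξ hξ' => ?_⟩
    rw [← he t ht u hu v hv g hg]
    exact h3 u hu v hv g hg ξ hξ hξ'

lemma obs_norm [Nontrivial H] (hF : FaStmt H) (hI : IseStmt H) (A : Amb H) {G : Geo H}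
    (hG : G.OK) (hObs : ObsStmt H) (f : ES hF hI A hG) (hf : Good A G (raw hF hI A hG f))
    (y : ES hF hI A hG) : 1 ≤ ‖1 - y * (star f * f) * star y‖ := by
  obtain ⟨e, he⟩ := exists_unit A
  obtain ⟨w, hw, h0⟩ := hObs A G hG _ hf _ (raw_isE hF hI A hG y) e
  set z := pt (A := A) (left_mem_Icc.mpr zero_le_one) hw hw (one_mem_GM A) with hz
  have h1 : (rep hF hI A hG).ev z (1 - y * (star f * f) * star y) e = e := by
    have e1 : (rep hF hI A hG).ev z f = raw hF hI A hG f 0 w w 1 := raw_ev hF hI A hG f z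
    have e2 : (rep hF hI A hG).ev z y = raw hF hI A hG y 0 w w 1 := raw_ev hF hI A hG y z
    rw [map_sub, map_one, map_mul, map_mul, map_mul, map_star, map_star, e1, e2]
    rw [sub_apply, mul_ap, mul_ap, mul_ap, h0, map_zero, map_zero, sub_zero]
    rfl
  calc (1 : ℝ) = ‖e‖ := he.symm
    _ = ‖(rep hF hI A hG).ev z (1 - y * (star f * f) * star y) e‖ := by rw [h1]
    _ ≤ ‖(rep hF hI A hG).ev z (1 - y * (star f * f) * star y)‖ * ‖e‖ :=
        ContinuousLinearMap.le_opNorm _ _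
    _ ≤ ‖1 - y * (star f * f) * star y‖ := by
        rw [he, mul_one]
        exact ev_norm_le hF hI A hG _ z

/-! ### the sequence of the stages -/

section seq

variable (A : Amb H) (hData : DataStmt H) (hGeo : GeoStmt H)

/-- the stages -/
def stg (G0 : Geo H) (h0 : G0.OK) : ℕ → {G : Geo H // G.OK}
  | 0 => ⟨G0, h0⟩
  | n + 1 => ⟨(stg G0 h0 n).1.next A (hData A _ (stg G0 h0 n).2).choose,
      hGeo A _ _ (stg G0 h0 n).2 (hData A _ (stg G0 h0 n).2).choose_spec⟩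

/-- the blocks of the stages -/
def blks (G0 : Geo H) (h0 : G0.OK) (n : ℕ) : Blk H :=
  (hData A _ (stg A hData hGeo G0 h0 n).2).choose

lemma blks_ok (G0 : Geo H) (h0 : G0.OK) (n : ℕ) :
    (blks A hData hGeo G0 h0 n).OK A (stg A hData hGeo G0 h0 n).1 :=
  (hData A _ (stg A hData hGeo G0 h0 n).2).choose_spec

end seq

theorem core_exists [Nontrivial H] (A : Amb H) (hF : FaStmt H) (hI : IseStmt H)
    (hP : PhiStmt H) (hData : DataStmt H) (hGeo : GeoStmt H) (hFull : FullStmt H)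
    (hHom : HomStmt H) (hSec : SecStmt H) (hShift : ShiftStmt H) (hRows : RowsStmt H)
    (hInit : InitStmt H) (hObs : ObsStmt H) (hLim : LimStmt) :
    ∃ (L : Type) (_ : CStarAlgebra L), Core L := by
  obtain ⟨S1, S2, s11, s22, s12, ssum⟩ := exists_pair A
  obtain ⟨G0, hG0, F0, hF0, hgood, hne⟩ := hInit A S1 S2 s11 s22 s12 ssum
  let G : ∀ n, {G : Geo H // G.OK} := stg A hData hGeo G0 hG0
  let D : ∀ n, Blk H := blks A hData hGeo G0 hG0
  have hD : ∀ n, (D n).OK A (G n).1 := blks_ok A hData hGeo G0 hG0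
  let E : ℕ → Type := fun n => ES hF hI A (G n).2
  have hnt : ∀ n, Nontrivial (E n) := fun n => ES_nontrivial hF hI A (G n).2
  let φ : ∀ n, E n →⋆ₐ[ℂ] E (n + 1) := fun n =>
    conn hF hI hP A (G n).2 (hD n) (G (n + 1)).2
  let f : ∀ n, E n := fun n => Nat.rec (mk hF hI A (G 0).2 (F := F0) hF0) (fun n x => φ n x) n
  have hfs : ∀ n, f (n + 1) = φ n (f n) := fun n => rfl
  have hgoodn : ∀ n, Good A (G n).1 (raw hF hI A (G n).2 (f n)) := by
    intro n
    induction n with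
    | zero =>
      refine Good.congr hgood fun t ht u hu v hv g hg => ?_
      have h1 := raw_ev hF hI A (G 0).2 (f 0) (pt ht hu hv hg)
      have h2 := ev_mk hF hI A (G 0).2 (F := F0) hF0 (pt ht hu hv hg)
      have h3 : f 0 = mk hF hI A (G 0).2 (F := F0) hF0 := rfl
      rw [h3] at h1
      rw [h1] at h2
      exact h2.symm
    | succ n ih =>
      refine Good.congr (hRows A (G n).1 (D n) (G n).2 (hD n) _
        (raw_isE hF hI A (G n).2 (f n)) ih) fun t ht u hu v hv g hg => ?_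
      exact (raw_conn hF hI hP A (G n).2 (hD n) (G (n + 1)).2 (f n) ht hu hv hg).symm
  refine hLim E φ (fun n => conn_injective hF hI hP A (G n).2 (hD n) (G (n + 1)).2 hFull)
    (fun n x hx I hI' => conn_full hF hI hP A (G n).2 (hD n) (G (n + 1)).2 hFull hx I hI')
    (fun n p hp hp0 => conn_proj hF hI hP A (G n).2 (hD n) (G (n + 1)).2 hHom hSec hShift hp hp0)
    f hfs ?_ (fun n y => obs_norm hF hI A (G n).2 hObs (f n) (hgoodn n) y)
  intro h0
  obtain ⟨t, ht, u, hu, v, hv, g, hg, hne'⟩ := hne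
  have h2 := ev_mk hF hI A (G 0).2 (F := F0) hF0 (pt ht hu hv hg)
  have h3 : mk hF hI A (G 0).2 (F := F0) hF0 = 0 := h0
  rw [h3, map_zero] at h2
  exact hne' h2.symm

end

end Pool.Agent.Y269.EL
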