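import Pool.Agent.Y269.EL.Asm
import Pool.Agent.Y547.EL.Ops
import Pool.Agent.Y563.EL.Buk
import Pool.Agent.Y386.EL.Data
import Pool.Agent.Y331.EL.Ise
import Pool.Agent.Y257.EL.FA
import Pool.Agent.Y547.EL.Hom
import Pool.Agent.Y350.EL.Sec
import Pool.Agent.Y929.EL.Init
import Pool.Agent.Y257.EL.Obs
import Pool.Agent.Y165.EL.Lim
import Pool.Agent.Y261.EL.Sep
import Pool.Agent.Y257.EL.Npi
import Pool.Agent.Y331.EL.Geo
import Pool.Agent.Y652.EL.Full
import Pool.Agent.Y386.EL.Shift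
import Pool.Agent.Y261.EL.Rows
import Pool.Agent.Y929.EL.Phi3

/-!
The answer to Elliott's question.
-/

set_option autoImplicit false

namespace Pool.Agent.Y269.EL

open Pool.Agent.Y269.ElliottDef

theorem elliott : ∃ (A : Type) (_ : CStarAlgebra A), TopologicalSpace.SeparableSpace A ∧
    IsSimpleRing A ∧ (∀ p : A, IsStarProjection p → p ≠ 0 → InfiniteProj p) ∧
    ¬ PurelyInfinite A := by
  obtain ⟨H, _, _, _, ⟨A⟩⟩ := Pool.Agent.Y547.EL.amb
  have hnt : Nontrivial H := by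
    obtain ⟨e, he⟩ := exists_unit A
    refine ⟨⟨e, 0, fun h => ?_⟩⟩
    rw [h, norm_zero] at he
    exact zero_ne_one he
  have hI := Pool.Agent.Y331.EL.ise H
  have hF := Pool.Agent.Y257.EL.fa H
  obtain ⟨L, _, hL⟩ := core_exists A hF hI (Pool.Agent.Y929.EL.phi H hI)
    (Pool.Agent.Y386.EL.data H) (Pool.Agent.Y331.EL.geo H) (Pool.Agent.Y652.EL.full H hI)
    (Pool.Agent.Y547.EL.hom H hF hI) (Pool.Agent.Y350.EL.sec H hI)
    (Pool.Agent.Y386.EL.shift H hI) (Pool.Agent.Y261.EL.Rw.rows H hI)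
    (Pool.Agent.Y929.EL.init H hI) (Pool.Agent.Y257.EL.obs H Pool.Agent.Y563.EL.buk hI)
    Pool.Agent.Y165.EL.lim
  obtain ⟨B, _, hsep, hB⟩ := Pool.Agent.Y261.EL.sep L hL
  exact ⟨B, inferInstance, hsep, hB.1, hB.2.1, Pool.Agent.Y257.EL.npi B hB⟩

end Pool.Agent.Y269.EL
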