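import Mathlib

/-!
Definitions and statements for the construction of a unital simple C*-algebra in which every
nonzero projection is infinite but which is not purely infinite.
-/

set_option autoImplicit false

namespace Pool.Agent.Y269.EL

open Filter Topology Set
open scoped InnerProductSpace

noncomputable section

/-- Operators on a Hilbert space: anticommuting self-adjoint unitaries `ga i`, isometries `R m`
with orthogonal ranges spanning the space and commuting with the `ga i`, and an orthonormal basis. -/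
structure Amb (H : Type) [NormedAddCommGroup H] [InnerProductSpace ℂ H] [CompleteSpace H] where
  ga : ℕ → (H →L[ℂ] H)
  R : ℕ → (H →L[ℂ] H)
  b : HilbertBasis ℕ ℂ H
  ga_star : ∀ i, star (ga i) = ga i
  ga_sq : ∀ i, ga i * ga i = 1
  ga_anti : ∀ i j, i ≠ j → ga i * ga j = -(ga j * ga i)
  R_orth : ∀ i j, star (R i) * R j = if i = j then 1 else 0
  R_ga : ∀ m i, R m * ga i = ga i * R m
  parseval : ∀ f : H, HasSum (fun m => ‖(star (R m)) f‖ ^ 2) (‖f‖ ^ 2)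
  fs : ∀ (X : ℕ → (H →L[ℂ] H)) (C : ℝ), 0 ≤ C →
    (∀ (N : ℕ) (f : H), ∑ m ∈ Finset.range N, ‖X m f‖ ^ 2 ≤ C ^ 2 * ‖f‖ ^ 2) →
    ∃ Y : H →L[ℂ] H, (∀ m, star (R m) * Y = X m) ∧ ‖Y‖ ≤ C

/-- points: sequences of points of spheres -/
abbrev Pt : Type := ℕ → ℕ → ℝ

/-- the unit sphere of dimension `n`, as a set of sequences -/
def sph (n : ℕ) : Set (ℕ → ℝ) :=
  {s | (∀ i, n < i → s i = 0) ∧ ∑ i ∈ Finset.range (n + 1), s i ^ 2 = 1}

/-- products of spheres -/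
def XX (d : ℕ → ℕ) : Set Pt := {w | ∀ k, w k ∈ sph (d k)}

/-- the flip of a coordinate -/
def flp (k : ℕ) (w : Pt) : Pt := Function.update w k (-(w k))

/-- the sign of the flip of coordinate `k` on functions with the parity set `J` -/
def sg (J : Finset ℕ) (k : ℕ) : ℂ := if k ∈ J then -1 else 1

variable {H : Type} [NormedAddCommGroup H] [InnerProductSpace ℂ H] [CompleteSpace H]

/-- the unitary of a point of a sphere -/
def Ub (A : Amb H) (n : ℕ) (s : ℕ → ℝ) : H →L[ℂ] H :=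
  ∑ i ∈ Finset.range (n + 1), ((s i : ℝ) : ℂ) • A.ga i

/-- the monoid generated by the unitaries of the points of the spheres -/
def GM (A : Amb H) : Submonoid (H →L[ℂ] H) :=
  Submonoid.closure {x | ∃ n, ∃ s ∈ sph n, x = Ub A n s}

/-- bounded functions which are continuous, together with their adjoints, in the strong operator
topology -/
structure SC {T : Type} [TopologicalSpace T] (D : Set T) (F : T → (H →L[ℂ] H)) : Prop where
  bdd : ∃ C : ℝ, ∀ z ∈ D, ‖F z‖ ≤ C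
  cont : ∀ ξ : H, ContinuousOn (fun z => F z ξ) D
  cont' : ∀ ξ : H, ContinuousOn (fun z => (star (F z)) ξ) D

/-- the domain of the functions -/
def Dom (A : Amb H) (d : ℕ → ℕ) : Set (ℝ × Pt × Pt × (H →L[ℂ] H)) :=
  Icc (0 : ℝ) 1 ×ˢ XX d ×ˢ XX d ×ˢ (GM A : Set (H →L[ℂ] H))

/-- the geometric data of a stage: the dimensions of the spheres, capacities, depths, ancestors,
and a pair of isometries -/
structure Geo (H : Type) [NormedAddCommGroup H] [InnerProductSpace ℂ H] [CompleteSpace H] where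
  d : ℕ → ℕ
  cap : ℕ → ℕ
  dep : ℕ → ℕ
  an : ℕ → Finset ℕ
  S1 : H →L[ℂ] H
  S2 : H →L[ℂ] H

structure Geo.OK (G : Geo H) : Prop where
  d_pos : ∀ k, 1 ≤ G.d k
  cap_le : ∀ k, 2 * G.cap k ≤ G.d k
  self_mem : ∀ k, k ∈ G.an k
  dep_lt : ∀ k, ∀ j ∈ G.an k, j ≠ k → G.dep j < G.dep k
  an_trans : ∀ k, ∀ j ∈ G.an k, G.an j ⊆ G.an k
  s11 : star G.S1 * G.S1 = 1
  s22 : star G.S2 * G.S2 = 1
  s12 : star G.S1 * G.S2 = 0
  sum_one : G.S1 * star G.S1 + G.S2 * star G.S2 = 1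

/-- the functions in the algebra of a stage -/
structure IsE (A : Amb H) (G : Geo H) (F : ℝ → Pt → Pt → (H →L[ℂ] H) → (H →L[ℂ] H)) : Prop where
  sc : SC (Dom A G.d) (fun z => F z.1 z.2.1 z.2.2.1 z.2.2.2)
  eqc : ∀ ε : ℝ, 0 < ε → ∃ δ : ℝ, 0 < δ ∧ ∀ t ∈ Icc (0 : ℝ) 1, ∀ t' ∈ Icc (0 : ℝ) 1,
    |t - t'| < δ → ∀ u ∈ XX G.d, ∀ v ∈ XX G.d, ∀ g ∈ GM A, ‖F t u v g - F t' u v g‖ ≤ ε
  ev1 : ∀ t ∈ Icc (0 : ℝ) 1, ∀ u ∈ XX G.d, ∀ v ∈ XX G.d, ∀ g ∈ GM A, ∀ k : ℕ,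
    F t (flp k u) v g = F t u v g
  ev2 : ∀ t ∈ Icc (0 : ℝ) 1, ∀ u ∈ XX G.d, ∀ v ∈ XX G.d, ∀ g ∈ GM A, ∀ k : ℕ,
    F t u (flp k v) g = F t u v g
  ev3 : ∀ t ∈ Icc (0 : ℝ) 1, ∀ u ∈ XX G.d, ∀ v ∈ XX G.d, ∀ g ∈ GM A,
    F t u v (-g) = F t u v g
  bd0 : ∀ u ∈ XX G.d, ∀ v ∈ XX G.d, ∀ g ∈ GM A, F 0 u v g = F 0 u u 1
  bd1 : ∀ u ∈ XX G.d, ∀ v ∈ XX G.d, ∀ g ∈ GM A, F 1 u v g =
    G.S1 * F 0 u u 1 * star G.S1 + G.S2 * g * F 0 v v 1 * star g * star G.S2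

/-- the data of the blocks of the connecting map -/
structure Blk (H : Type) [NormedAddCommGroup H] [InnerProductSpace ℂ H] [CompleteSpace H] where
  L : ℕ → Finset ℕ
  p1 : ℕ → Pt
  p2 : ℕ → Pt
  t : ℕ → ℝ
  g : ℕ → (H →L[ℂ] H)

structure Blk.OK (D : Blk H) (A : Amb H) (G : Geo H) : Prop where
  closed : ∀ m, ∀ k ∈ D.L m, G.an k ⊆ D.L m
  p1_mem : ∀ m, D.p1 m ∈ XX G.d
  p2_mem : ∀ m, D.p2 m ∈ XX G.d
  t_mem : ∀ m, D.t m ∈ Icc (0 : ℝ) 1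
  g_mem : ∀ m, D.g m ∈ GM A
  even : ∀ m, Even m → D.L m = ∅ ∧ D.t m = 0 ∧ D.g m = 1
  dense : ∀ a : ℕ, ∃ L : Finset ℕ, Finset.range a ⊆ L ∧
    ∀ O : Set (ℝ × Pt × Pt × (H →L[ℂ] H)), IsOpen O → (O ∩ Dom A G.d).Nonempty →
      {m | Odd m ∧ D.L m = L ∧ (D.t m, D.p1 m, D.p2 m, D.g m) ∈ O}.Infinite

/-- the coordinates of the next stage -/
def cS (m : ℕ) : ℕ := Nat.pair m 0
def c1 (m k : ℕ) : ℕ := Nat.pair m (2 * k + 1)
def c2 (m k : ℕ) : ℕ := Nat.pair m (2 * k + 2)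

/-- functions of the coordinates of the next stage -/
def rec3 {α : Type} (f0 : ℕ → α) (f1 f2 : ℕ → ℕ → α) (n : ℕ) : α :=
  if (Nat.unpair n).2 = 0 then f0 (Nat.unpair n).1
  else if (Nat.unpair n).2 % 2 = 1 then f1 (Nat.unpair n).1 ((Nat.unpair n).2 / 2)
  else f2 (Nat.unpair n).1 ((Nat.unpair n).2 / 2 - 1)

lemma rec3_cS {α : Type} (f0 : ℕ → α) (f1 f2 : ℕ → ℕ → α) (m : ℕ) :
    rec3 f0 f1 f2 (cS m) = f0 m := by
  simp [rec3, cS]

lemma rec3_c1 {α : Type} (f0 : ℕ → α) (f1 f2 : ℕ → ℕ → α) (m k : ℕ) :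
    rec3 f0 f1 f2 (c1 m k) = f1 m k := by
  have h1 : (2 * k + 1) / 2 = k := by omega
  have h2 : (2 * k + 1) % 2 = 1 := by omega
  simp [rec3, c1, h1, h2]

lemma rec3_c2 {α : Type} (f0 : ℕ → α) (f1 f2 : ℕ → ℕ → α) (m k : ℕ) :
    rec3 f0 f1 f2 (c2 m k) = f2 m k := by
  have h1 : (2 * k + 2) / 2 - 1 = k := by omega
  have h2 : (2 * k + 2) % 2 ≠ 1 := by omega
  simp [rec3, c2, h1, h2]

lemma rec3_cases (n : ℕ) : (∃ m, n = cS m) ∨ (∃ m k, n = c1 m k) ∨ ∃ m k, n = c2 m k := by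
  rcases Nat.eq_zero_or_pos (Nat.unpair n).2 with h | h
  · left
    refine ⟨(Nat.unpair n).1, ?_⟩
    rw [cS, ← h, Nat.pair_unpair]
  · right
    rcases Nat.mod_two_eq_zero_or_one (Nat.unpair n).2 with h2 | h2
    · right
      refine ⟨(Nat.unpair n).1, (Nat.unpair n).2 / 2 - 1, ?_⟩
      have : 2 * ((Nat.unpair n).2 / 2 - 1) + 2 = (Nat.unpair n).2 := by omega
      rw [c2, this, Nat.pair_unpair]
    · left
      refine ⟨(Nat.unpair n).1, (Nat.unpair n).2 / 2, ?_⟩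
      have : 2 * ((Nat.unpair n).2 / 2) + 1 = (Nat.unpair n).2 := by omega
      rw [c1, this, Nat.pair_unpair]

/-- the operator `Y` with given rows `star (R m) * Y = X m` (zero if there is none) -/
def asm (A : Amb H) (X : ℕ → (H →L[ℂ] H)) : H →L[ℂ] H := by
  classical exact if h : ∃ Y : H →L[ℂ] H, ∀ m, star (A.R m) * Y = X m then h.choose else 0

/-- the block diagonal operator `∑ R m * T m * star (R m)` -/
def bs (A : Amb H) (T : ℕ → (H →L[ℂ] H)) : H →L[ℂ] H := asm A fun m => T m * star (A.R m)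

/-- the geometric data of the next stage -/
def Geo.next (G : Geo H) (A : Amb H) (D : Blk H) : Geo H where
  d := rec3 (fun m => 2 * (2 * ∑ k ∈ D.L m, G.cap k) + 1) (fun _ k => G.d k) (fun _ k => G.d k)
  cap := rec3 (fun m => 2 * ∑ k ∈ D.L m, G.cap k) (fun _ k => G.cap k) (fun _ k => G.cap k)
  dep := rec3 (fun _ => 0) (fun _ k => G.dep k + 1) (fun _ k => G.dep k + 1)
  an := rec3 (fun m => {cS m}) (fun m k => insert (cS m) ((G.an k).image (c1 m)))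
    (fun m k => insert (cS m) ((G.an k).image (c2 m)))
  S1 := bs A (fun m => if Even m then G.S1 else 1)
  S2 := asm A (fun m => if Even m then G.S2 * star (A.R (m / 2)) else 0)

/-- the first point of the block `m` -/
def Y1 (D : Blk H) (m : ℕ) (w : Pt) : Pt := fun k => if k ∈ D.L m then D.p1 m k else w (c1 m k)

/-- the second point of the block `m` -/
def Y2 (D : Blk H) (m : ℕ) (w : Pt) : Pt := fun k => if k ∈ D.L m then D.p2 m k else w (c2 m k)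

/-- the twisting unitary of the block `m` -/
def hh (A : Amb H) (G : Geo H) (D : Blk H) (m : ℕ) (w : Pt) : H →L[ℂ] H :=
  if Even m then 1 else Ub A ((G.next A D).d (cS m)) (w (cS m))

/-- the twisted value of `F` in the block `m` at the time `τ` -/
def blkt (A : Amb H) (G : Geo H) (D : Blk H) (m : ℕ)
    (F : ℝ → Pt → Pt → (H →L[ℂ] H) → (H →L[ℂ] H)) (τ : ℝ) (w : Pt) : H →L[ℂ] H :=
  hh A G D m w * F τ (Y1 D m w) (Y2 D m w) (D.g m) * star (hh A G D m w)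

/-- the even block -/
def Aop (A : Amb H) (G : Geo H) (D : Blk H) (i : ℕ)
    (F : ℝ → Pt → Pt → (H →L[ℂ] H) → (H →L[ℂ] H)) (s : ℝ) (w w' : Pt) (g : H →L[ℂ] H) :
    H →L[ℂ] H :=
  if s ≤ 1 / 2 then F (2 * s) (Y1 D (2 * i) w) (Y1 D i w') (g * hh A G D i w')
  else G.S1 * F 0 (Y1 D (2 * i) w) (Y1 D (2 * i) w) 1 * star G.S1 +
    G.S2 * g * blkt A G D i F ((2 * s - 1) * D.t i) w' * star g * star G.S2

/-- the connecting map -/
def Phi (A : Amb H) (G : Geo H) (D : Blk H)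
    (F : ℝ → Pt → Pt → (H →L[ℂ] H) → (H →L[ℂ] H)) (s : ℝ) (w w' : Pt) (g : H →L[ℂ] H) :
    H →L[ℂ] H :=
  bs A (fun m => if Even m then Aop A G D (m / 2) F s w w' g else blkt A G D m F (D.t m) w)

/-- leading coordinates and parity sets of a family of rows -/
structure Lead (G : Geo H) {I : Type} (l : I → ℕ) (J : I → Finset ℕ) : Prop where
  mem : ∀ r, l r ∈ J r
  sub : ∀ r, J r ⊆ G.an (l r)
  count : ∀ k, {r | l r = k}.encard ≤ G.cap k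

/-- rows of a function on the product of the spheres -/
structure Rows0 (G : Geo H) {I : Type} (l : I → ℕ) (J : I → Finset ℕ) (ρ : I → Pt → H) :
    Prop where
  lead : Lead G l J
  cont : ∀ r, ContinuousOn (ρ r) (XX G.d)
  par : ∀ r, ∀ w ∈ XX G.d, ∀ k, ρ r (flp k w) = sg (J r) k • ρ r w

/-- rows of type 1 (equivariant in the first variable, invariant in the other ones) -/
structure Rows1 (A : Amb H) (G : Geo H) {I : Type} (l : I → ℕ) (J : I → Finset ℕ)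
    (ρ : I → Pt → Pt → (H →L[ℂ] H) → H) : Prop where
  lead : Lead G l J
  cont : ∀ r, ContinuousOn (fun z : Pt × Pt × (H →L[ℂ] H) => ρ r z.1 z.2.1 z.2.2)
    (XX G.d ×ˢ XX G.d ×ˢ (GM A : Set (H →L[ℂ] H)))
  par1 : ∀ r, ∀ u ∈ XX G.d, ∀ v ∈ XX G.d, ∀ g ∈ GM A, ∀ k,
    ρ r (flp k u) v g = sg (J r) k • ρ r u v g
  par2 : ∀ r, ∀ u ∈ XX G.d, ∀ v ∈ XX G.d, ∀ g ∈ GM A, ∀ k, ρ r u (flp k v) g = ρ r u v g
  par3 : ∀ r, ∀ u ∈ XX G.d, ∀ v ∈ XX G.d, ∀ g ∈ GM A, ρ r u v (-g) = ρ r u v g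

/-- rows of type 2 (equivariant in the second variable, invariant in the first one, odd in the
third one) -/
structure Rows2 (A : Amb H) (G : Geo H) {I : Type} (l : I → ℕ) (J : I → Finset ℕ)
    (ρ : I → Pt → Pt → (H →L[ℂ] H) → H) : Prop where
  lead : Lead G l J
  cont : ∀ r, ContinuousOn (fun z : Pt × Pt × (H →L[ℂ] H) => ρ r z.1 z.2.1 z.2.2)
    (XX G.d ×ˢ XX G.d ×ˢ (GM A : Set (H →L[ℂ] H)))
  par1 : ∀ r, ∀ u ∈ XX G.d, ∀ v ∈ XX G.d, ∀ g ∈ GM A, ∀ k, ρ r (flp k u) v g = ρ r u v g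
  par2 : ∀ r, ∀ u ∈ XX G.d, ∀ v ∈ XX G.d, ∀ g ∈ GM A, ∀ k,
    ρ r u (flp k v) g = sg (J r) k • ρ r u v g
  par3 : ∀ r, ∀ u ∈ XX G.d, ∀ v ∈ XX G.d, ∀ g ∈ GM A, ρ r u v (-g) = -ρ r u v g

/-- functions with few rows -/
structure Good (A : Amb H) (G : Geo H) (F : ℝ → Pt → Pt → (H →L[ℂ] H) → (H →L[ℂ] H)) :
    Prop where
  zero : ∃ (I : Type) (l : I → ℕ) (J : I → Finset ℕ) (ρ : I → Pt → H), Rows0 G l J ρ ∧
    ∀ w ∈ XX G.d, ∀ ξ : H, (∀ r, ⟪ρ r w, ξ⟫_ℂ = 0) → F 0 w w 1 ξ = 0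
  all : ∀ t ∈ Icc (0 : ℝ) 1, ∃ (I1 I2 : Type) (l1 : I1 → ℕ) (J1 : I1 → Finset ℕ)
    (ρ1 : I1 → Pt → Pt → (H →L[ℂ] H) → H) (l2 : I2 → ℕ) (J2 : I2 → Finset ℕ)
    (ρ2 : I2 → Pt → Pt → (H →L[ℂ] H) → H), Rows1 A G l1 J1 ρ1 ∧ Rows2 A G l2 J2 ρ2 ∧
    ∀ u ∈ XX G.d, ∀ v ∈ XX G.d, ∀ g ∈ GM A, ∀ ξ : H, (∀ r, ⟪ρ1 r u v g, ξ⟫_ℂ = 0) →
      (∀ r, ⟪ρ2 r u v g, ξ⟫_ℂ = 0) → F t u v g ξ = 0

end

end Pool.Agent.Y269.EL
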